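import Pool.Agent.MP_ca1109_lc.Xs.DG
import Pool.Agent.MP_ca1109_lc.Xd.CZ

/-!
# Conditioning of a string whose short parities have small bias
-/

namespace Pool.Agent.MP_ca1109_lc.Xs

open Finset Pool.Agent.MP_ca1109_lc.Mpg Pool.Agent.MP_ca1109_lc.Agp
open Pool.Agent.MP_ca1109_lc.Dnf (Cube ch one Term On)
open Pool.Agent.MP_ca1109_lc.Xl (Tr)
open Pool.Agent.MP_ca1109_lc.Xd (sb lf cz_ch_sb cz_one_term cz_on_ch cz_av_const cond)

variable {n : ℕ}

theorem SpD.ch (S : Finset (Fin n)) : SpD S.card 1 (fun x : Cube n => ((Dnf.ch S x : ℝ) : ℂ)) := by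
  refine ⟨Unit, inferInstance, fun _ => 1, fun _ => S, fun _ => le_rfl, by simp, fun x => ?_⟩
  simp

/-- The characters of a leaf have average at most `δ`. -/
theorem cd_lf_ch {Ω : Type} [Fintype Ω] [Nonempty Ω] {Y : Ω → Cube n} {δ : ℝ} {D : ℕ} (hδ : 0 ≤ δ)
    (L : Finset (Fin n)) (hY : BiasD (L.card + D) δ Y) (t : Cube n) {S : Finset (Fin n)}
    (hS : S ≠ ∅) (hD : S.card ≤ D) :
    ‖av fun ω => lf L t (fun x => ((ch S x : ℝ) : ℂ)) (Y ω)‖ ≤ δ := by
  have h1 : ∀ x : Cube n, lf L t (fun x => ((ch S x : ℝ) : ℂ)) x =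
      ((one (Tr L t x) : ℝ) : ℂ) * (((if S ∩ L = ∅ then (1 : ℝ) else 0) : ℝ) *
        ((ch (S \ L) x : ℝ) : ℂ)) := by
    intro x
    unfold Xd.lf
    congr 1
    have h2 : (fun w : Cube n => ((ch S (sb L w x) : ℝ) : ℂ)) =
        fun w => ((ch (S \ L) x : ℝ) : ℂ) * ((ch (S ∩ L) w : ℝ) : ℂ) := by
      funext w
      rw [cz_ch_sb]
      push_cast
      ring
    rw [h2, Xp.spb_av_mul, Xp.spb_avg_ofReal, Xp.spb_avg_E, Dnf.E_ch, mul_comm]
  simp only [h1]
  by_cases hL : S ∩ L = ∅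
  · have h4 : S \ L = S := by
      rw [Finset.sdiff_eq_self_iff_disjoint]
      exact disjoint_iff_inter_eq_empty.2 hL
    rw [if_pos hL, h4]
    have h5 : SpD (L.card + S.card) 1 (fun x : Cube n => ((one (Tr L t x) : ℝ) : ℂ) *
        (((1 : ℝ) : ℂ) * ((ch S x : ℝ) : ℂ))) := by
      refine (((SpD.term (⟨L, t⟩ : Term n)).mul (SpD.ch S)).mono le_rfl (by norm_num)).of_eq
        fun x => ?_
      rw [cz_one_term]
      push_cast
      ring
    have h6 := SpD.fool hδ (hY.mono (by omega)) h5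
    have h7 : av (fun x : Cube n => ((one (Tr L t x) : ℝ) : ℂ) *
        (((1 : ℝ) : ℂ) * ((ch S x : ℝ) : ℂ))) = 0 := by
      have h8 : (fun x : Cube n => ((one (Tr L t x) : ℝ) : ℂ) *
          (((1 : ℝ) : ℂ) * ((ch S x : ℝ) : ℂ))) =
          fun x => ((((⟨L, t⟩ : Term n).f x * ch S x : ℝ)) : ℂ) := by
        funext x
        rw [cz_one_term]
        push_cast
        ring
      rw [h8, Xp.spb_avg_ofReal, Xp.spb_avg_E,
        Dnf.E_indep (disjoint_iff_inter_eq_empty.2 (by rw [inter_comm]; exact hL))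
          (Dnf.on_term (⟨L, t⟩ : Term n)) (cz_on_ch S)]
      have h10 : Dnf.E (ch S : Cube n → ℝ) = 0 := by rw [Dnf.E_ch, if_neg hS]
      rw [h10, mul_zero, Complex.ofReal_zero]
    rw [h7, sub_zero, mul_one] at h6
    exact h6
  · rw [if_neg hL]
    simp only [Complex.ofReal_zero, zero_mul, mul_zero]
    rw [cz_av_const, norm_zero]
    exact hδ

/-- A string whose short parities have small bias, conditioned on its bits in `L`, with fresh bits in
`L`. -/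
theorem czD {Ω : Type} [Fintype Ω] [Nonempty Ω] {Y : Ω → Cube n} {δ : ℝ} {D : ℕ} (hδ : 0 ≤ δ)
    (L : Finset (Fin n)) (hY : BiasD (L.card + D) δ Y) (hL : δ * 2 ^ L.card ≤ 1 / 2) (t : Cube n) :
    |(avg fun ω => one (Tr L t (Y ω))) - (1 / 2) ^ L.card| ≤ δ ∧
    ∃ (Ω' : Type) (_ : Fintype Ω') (_ : Nonempty Ω') (Y' : Ω' → Cube n),
      BiasD D (2 ^ (L.card + 1) * δ) Y' ∧
      ∀ f : Cube n → ℂ, av (fun ω => lf L t f (Y ω)) =
        ((avg fun ω => one (Tr L t (Y ω)) : ℝ) : ℂ) * av fun ω' => f (Y' ω') := by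
  classical
  have hP : |(avg fun ω => one (Tr L t (Y ω))) - (1 / 2) ^ L.card| ≤ δ := by
    have h := SpD.fool_real hδ (hY.mono (Nat.le_add_right _ _)) (SpD.term (⟨L, t⟩ : Term n))
    have h3 : avg (⟨L, t⟩ : Term n).f = (1 / 2) ^ L.card := by
      rw [Xp.spb_avg_E, Dnf.E_term]
    rw [h3, mul_one] at h
    exact h
  have h2 : (0 : ℝ) < 2 ^ L.card := by positivity
  have hPt : (1 / 2) ^ (L.card + 1) ≤ avg fun ω => one (Tr L t (Y ω)) := by
    have h3 := (abs_le.1 hP).1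
    have h4 : δ ≤ (1 / 2) ^ (L.card + 1) := by
      have h5 : (1 / 2 : ℝ) ^ (L.card + 1) = 1 / 2 / 2 ^ L.card := by
        rw [pow_succ, one_div_pow]
        ring
      rw [h5, le_div_iff₀ h2]
      exact hL
    have h5 : (1 / 2 : ℝ) ^ L.card = (1 / 2) ^ (L.card + 1) + (1 / 2) ^ (L.card + 1) := by
      rw [pow_succ]
      ring
    linarith
  have hpos : 0 < avg fun ω => one (Tr L t (Y ω)) := lt_of_lt_of_le (by positivity) hPt
  obtain ⟨Ω', i1, i2, Y', hY'⟩ := cond Y L t hpos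
  refine ⟨hP, Ω', i1, i2, Y', fun S hS hD => ?_, hY'⟩
  have h3 := hY' fun x => ((ch S x : ℝ) : ℂ)
  have h4 := cd_lf_ch hδ L hY t hS hD
  rw [h3, norm_mul, Complex.norm_real, Real.norm_eq_abs, abs_of_pos hpos,
    Xp.spb_avg_ofReal, Complex.norm_real, Real.norm_eq_abs] at h4
  have h5 := (mul_le_mul_of_nonneg_right hPt (abs_nonneg _)).trans h4
  calc |(avg fun ω' => ch S (Y' ω'))|
      = 2 ^ (L.card + 1) * ((1 / 2 : ℝ) ^ (L.card + 1) * |(avg fun ω' => ch S (Y' ω'))|) := by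
        rw [← mul_assoc, ← mul_pow]
        norm_num
    _ ≤ 2 ^ (L.card + 1) * δ := mul_le_mul_of_nonneg_left h5 (by positivity)

end Pool.Agent.MP_ca1109_lc.Xs
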