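import Pool.Agent.MP_ca1109_lc.Xs.PR
import Pool.Agent.MP_ca1109_lc.Xr.IN
import Pool.Agent.MP_ca1109_lc.Pb.AT

/-!
# Parities times products over terms; gates which test parities
-/

namespace Pool.Agent.MP_ca1109_lc.Xs

open Finset Pool.Agent.H66 Pool.Agent.MP_ca1109_lc.Mpg Pool.Agent.MP_ca1109_lc.Agp
open Pool.Agent.MP_ca1109_lc.Dnf (Cube ch sg Term)
open Pool.Agent.MP_ca1109_lc.Xl (Tr pr)
open Pool.Agent.MP_ca1109_lc.Xp (Bias)
open Pool.Agent.MP_ca1109_lc.Xt (BP)
open Pool.Agent.MP_ca1109_lc.Xa (PB FP)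
open Pool.Agent.MP_ca1109_lc.Pb (At FoolA tt)
open Pool.Agent.MP_ca1109_lc.Xr (Gr)

variable {n : ℕ}

/-- The parities, up to the sign. -/
def upar (n : ℕ) : Submonoid (Cube n → ℂ) where
  carrier := {u | ∃ (S : Finset (Fin n)) (s : ℝ), (s = 1 ∨ s = -1) ∧
    ∀ x, u x = (s : ℂ) * ((ch S x : ℝ) : ℂ)}
  one_mem' := ⟨∅, 1, Or.inl rfl, fun x => by rw [Dnf.ch_empty]; simp⟩
  mul_mem' := by
    rintro u v ⟨S, s, hs, hu⟩ ⟨T, t, ht, hv⟩
    refine ⟨symmDiff S T, s * t, ?_, fun x => ?_⟩
    · rcases hs with rfl | rfl <;> rcases ht with rfl | rfl <;> norm_num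
    · rw [Pi.mul_apply, hu, hv, ← Dnf.ch_mul]
      push_cast
      ring

theorem at_norm {r : ℕ} {K V : ℝ} {g : Cube n → ℂ} (h : At r K V g) (x : Cube n) : ‖g x‖ ≤ 1 := by
  classical
  obtain ⟨ι, hι, T, z, J, ψ, h1, h2, h3, h4, h5, h6, h7⟩ := h
  rw [h7]
  unfold tt
  rw [norm_mul, norm_prod]
  refine mul_le_one₀ (h4 _) (prod_nonneg fun j _ => norm_nonneg _) ?_
  refine prod_le_one (fun j _ => norm_nonneg _) fun j _ => ?_
  split_ifs
  · exact (h3 j).le
  · rw [norm_one]

/-- Strings of small bias fool the products over the parities. -/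
theorem up_fp {r : ℕ} {K V ε δ : ℝ} (hδ : 0 ≤ δ) {Ω : Type} [Fintype Ω] [Nonempty Ω]
    {Y : Ω → Cube n} (hY : Bias δ Y)
    (H : ∀ (Ω' : Type) [Fintype Ω'] [Nonempty Ω'] (Z : Ω' → Cube n), Bias δ Z → FoolA r K V ε Z) :
    FP (upar n) r 1 K V (4 * (ε + δ)) Y := by
  intro f hf
  obtain ⟨u, ⟨S, s, hs, hu⟩, ι, i1, T, M, ζ, g, h1, h2, h3, h4, h5⟩ := hf
  have h9 : ∀ x, pr T ζ M x = 1 := by
    intro x
    unfold pr
    refine prod_eq_one fun m hm => ?_
    have := h3 m hm
    rw [pow_one] at this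
    rw [this, ite_self]
  have hf : ∀ x, f x = (s : ℂ) * (((ch S x : ℝ) : ℂ) * g x) := by
    intro x
    rw [h5, hu, h9, one_mul, mul_assoc]
  simp only [hf]
  have key := pr_chc hδ hY S (at_norm h4) fun Ω' _ _ Z hZ => H Ω' Z hZ g h4
  have e1 : ∀ {A : Type} [Fintype A] (F : A → ℂ), av (fun a => (s : ℂ) * F a) = (s : ℂ) * av F := by
    intro A _ F
    unfold av
    rw [← mul_sum, mul_div_assoc]
  have e2 : av f = (s : ℂ) * av fun x : Cube n => ((ch S x : ℝ) : ℂ) * g x := by
    rw [← e1]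
    congr 1
    funext x
    exact hf x
  rw [e1, e2, ← mul_sub, norm_mul]
  have h10 : ‖(s : ℂ)‖ = 1 := by
    rcases hs with rfl | rfl <;> simp
  rw [h10, one_mul]
  exact key

theorem ln_sum {G : Type} [AddCommGroup G] {ι : Type} (s : Finset ι) (χ : AddChar G ℂ) (f : ι → G) :
    χ (∑ i ∈ s, f i) = ∏ i ∈ s, χ (f i) := by
  classical
  induction s using Finset.induction_on with
  | empty => rw [sum_empty, prod_empty, AddChar.map_zero_eq_one]
  | insert a s ha ih => rw [sum_insert ha, prod_insert ha, AddChar.map_add_eq_mul, ih]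

/-- The characters of a vector of parities are parities. -/
theorem ln_char {m : ℕ} (ℓ : Fin m → Finset (Fin n)) (χ : AddChar (Fin m → ZMod 2) ℂ) :
    (fun x : Cube n => χ fun i => if par (ℓ i) x = true then 1 else 0) ∈ upar n := by
  classical
  have h1 : ∀ x : Cube n, χ (fun i => if par (ℓ i) x = true then 1 else 0) =
      ∏ i, χ (Pi.single i (if par (ℓ i) x = true then 1 else 0)) := by
    intro x
    rw [← ln_sum]
    congr 1
    exact (Finset.univ_sum_single _).symm
  have h2 : (fun x : Cube n => χ fun i => if par (ℓ i) x = true then 1 else 0) =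
      ∏ i, fun x : Cube n => χ (Pi.single i (if par (ℓ i) x = true then 1 else 0)) := by
    funext x
    rw [h1, Finset.prod_apply]
  rw [h2]
  refine Submonoid.prod_mem _ fun i _ => ?_
  have h3 : χ (Pi.single i 1) = 1 ∨ χ (Pi.single i 1) = -1 := by
    have h4 : χ (Pi.single i 1) * χ (Pi.single i 1) = 1 := by
      rw [← AddChar.map_add_eq_mul, ← Pi.single_add, show (1 : ZMod 2) + 1 = 0 by decide,
        Pi.single_zero, AddChar.map_zero_eq_one]
    exact mul_self_eq_one_iff.1 h4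
  obtain ⟨t, ht, hp⟩ := par_ch (ℓ i)
  rcases h3 with h3 | h3
  · refine ⟨∅, 1, Or.inl rfl, fun x => ?_⟩
    rw [Dnf.ch_empty]
    cases hq : par (ℓ i) x
    · simp [hq]
    · simp [hq, h3]
  · refine ⟨ℓ i, -t, by rcases ht with rfl | rfl <;> norm_num, fun x => ?_⟩
    cases hq : par (ℓ i) x
    · have h4 := (hp x).2 hq
      have h5 : ((-t : ℝ) : ℂ) * ((ch (ℓ i) x : ℝ) : ℂ) = 1 := by
        rw [← Complex.ofReal_mul, neg_mul, h4]
        simp
      rw [h5]
      simp [hq]
    · have h4 := (hp x).1 hq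
      have h5 : ((-t : ℝ) : ℂ) * ((ch (ℓ i) x : ℝ) : ℂ) = -1 := by
        rw [← Complex.ofReal_mul, neg_mul, h4]
        simp
      rw [h5]
      simp [hq, h3]

/-- The gates which test parities are gates in the sense of `Gr`. -/
theorem Lin.gr {B r : ℕ} {g : Cube n → Bool} (h : Lin B g) : Gr (upar n) r 1 B g := by
  classical
  obtain ⟨m, ℓ, A, hA, hg⟩ := h
  have hinj : Function.Injective fun (a : Fin m → Bool) (i : Fin m) =>
      (if a i = true then (1 : ZMod 2) else 0) := by
    intro a b hab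
    funext i
    have h1 := congrFun hab i
    simp only at h1
    cases ha : a i <;> cases hb : b i <;> rw [ha, hb] at h1 <;> revert h1 <;> decide
  refine Or.inl ⟨Fin m → ZMod 2, inferInstance, inferInstance,
    fun x i => if par (ℓ i) x = true then 1 else 0,
    A.image fun a i => if a i = true then (1 : ZMod 2) else 0, card_image_le.trans hA,
    fun χ => ?_, fun x => ?_⟩
  · refine ⟨_, ln_char ℓ χ, Empty, Empty, inferInstance, inferInstance, Empty.elim, ∅, Empty.elim,
      Empty.elim, ∅, Empty.elim, fun i => by simp, fun m => m.elim, fun m => m.elim,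
      fun i => by simp, fun m => m.elim, fun m => m.elim, by simp, fun x => ?_⟩
    unfold pr
    simp
  · rw [hg, mem_image]
    constructor
    · intro h
      exact ⟨_, h, rfl⟩
    · rintro ⟨a, ha, he⟩
      have h1 := hinj he
      rwa [← h1]

/-- Restrictions of such gates. -/
theorem Lin.fx {B : ℕ} {g : Cube n → Bool} (h : Lin B g) (L : Finset (Fin n)) (a : Cube n) :
    Lin B fun x => g (Xd.fx L a x) := by
  classical
  obtain ⟨m, ℓ, A, hA, hg⟩ := h
  choose c hc using fun i => par_fx (ℓ i) L a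
  refine ⟨m, fun i => ℓ i \ L, A.image fun v i => xor (c i) (v i), card_image_le.trans hA,
    fun x => ?_⟩
  rw [hg, mem_image]
  simp only [hc]
  constructor
  · intro h
    refine ⟨_, h, ?_⟩
    funext i
    simp
  · rintro ⟨v, hv, he⟩
    have h1 : (fun i => xor (c i) (par (ℓ i \ L) x)) = v := by
      funext i
      rw [← congrFun he i]
      simp
    rwa [h1]

end Pool.Agent.MP_ca1109_lc.Xs
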