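import Pool.Agent.MP_ca1109_lc.Xs.BD
import Pool.Agent.MP_ca1109_lc.Xs.LN

/-!
# Strings whose short parities have small bias fool the products over terms
-/

namespace Pool.Agent.MP_ca1109_lc.Xs

open Finset Pool.Agent.MP_ca1109_lc.Mpg Pool.Agent.MP_ca1109_lc.Agp
open Pool.Agent.MP_ca1109_lc.Xg (hx tj bb_card)
open Pool.Agent.MP_ca1109_lc.Dnf (Cube ch one E Term)
open Pool.Agent.MP_ca1109_lc.Pb (At FoolA tt)

variable {n : ℕ}

theorem fd_pow {δ : ℝ} (hδ : 0 ≤ δ) (hn : 1 ≤ n) {C C' : ℕ} (hC : C' ≤ C)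
    (h : δ * (n : ℝ) ^ C ≤ 1) : δ * (n : ℝ) ^ C' ≤ 1 := by
  refine le_trans (mul_le_mul_of_nonneg_left ?_ hδ) h
  exact pow_le_pow_right₀ (by exact_mod_cast hn) hC

/-- The probability of a wide term. -/
theorem fd_wide {Ω : Type} [Fintype Ω] [Nonempty Ω] {Y : Ω → Cube n} {W : ℕ} {δ : ℝ} (hδ : 0 ≤ δ)
    (hY : BiasD W δ Y) (t : Term n) (ht : W ≤ t.S.card) :
    (avg fun ω => t.f (Y ω)) ≤ (1 / 2) ^ W + δ := by
  classical
  obtain ⟨S', hS', hc⟩ := Finset.exists_subset_card_eq ht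
  have h1 : ∀ x, t.f x ≤ (⟨S', t.a⟩ : Term n).f x := by
    intro x
    unfold Term.f
    by_cases h : t.Sat x
    · have h' : (⟨S', t.a⟩ : Term n).Sat x := fun i hi => h i (hS' hi)
      rw [Dnf.one_true h, Dnf.one_true h']
    · rw [Dnf.one_false h]
      exact Dnf.one_nonneg _
  have h2 := SpD.fool_real hδ (hY.mono (le_of_eq hc)) (SpD.term (⟨S', t.a⟩ : Term n))
  have h3 : avg (⟨S', t.a⟩ : Term n).f = (1 / 2) ^ W := by
    rw [Xp.avg_E, Dnf.E_term]
    exact congrArg _ hc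
  rw [h3, mul_one] at h2
  have h4 := (abs_le.1 h2).2
  have h5 : (avg fun ω => t.f (Y ω)) ≤ avg fun ω => (⟨S', t.a⟩ : Term n).f (Y ω) :=
    avg_mono fun ω => h1 _
  linarith

/-- Small bias of the short parities fools the products over terms. -/
theorem fool_biasD (r : ℕ) (K V : ℝ) {ε : ℝ} (hε : 0 < ε) : ∃ C n₀ : ℕ, ∀ n ≥ n₀,
    ∀ {Ω : Type} [Fintype Ω] [Nonempty Ω] (Y : Ω → Cube n) (δ : ℝ), 0 ≤ δ → δ * (n : ℝ) ^ C ≤ 1 →
      BiasD (C * Nat.clog 2 n) δ Y → FoolA r K V ε Y := by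
  classical
  obtain ⟨C, hC⟩ := bbHD r K V (show 0 < ε / 4 by positivity)
  obtain ⟨n₁, hn₁⟩ := exists_nat_gt (((C : ℝ) * (2 * (r : ℝ) + 1)) ^ C / (ε / 4))
  obtain ⟨n₂, hn₂⟩ := exists_nat_gt (16 * (r : ℝ) / ε)
  refine ⟨2 * C + 2, max n₁ (max n₂ 1), fun n hn Ω _ _ Y δ hδ hδn hY g hg => ?_⟩
  have hn1 : n₁ ≤ n := (le_max_left _ _).trans hn
  have hn2 : n₂ ≤ n := (le_max_left _ _).trans ((le_max_right _ _).trans hn)
  have hn3 : 1 ≤ n := (le_max_right _ _).trans ((le_max_right _ _).trans hn)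
  have hnr : (1 : ℝ) ≤ n := by exact_mod_cast hn3
  have hnp : (0 : ℝ) < n := by linarith
  have hgn := at_norm hg
  obtain ⟨ι, hι, T, z, J, ψ, h1, h2, h3, h4, h5, h6, h7⟩ := hg
  obtain ⟨W, hW⟩ : ∃ W : ℕ, W = 2 * Nat.clog 2 n := ⟨_, rfl⟩
  obtain ⟨Nw, hNw⟩ : ∃ Nw : Finset ι, Nw = univ.filter fun j => (T j).S.card ≤ W := ⟨_, rfl⟩
  obtain ⟨H, hH⟩ : ∃ H : Finset ι, H = J.filter fun j => j ∈ Nw := ⟨_, rfl⟩
  have hmem : ∀ j, j ∈ Nw ↔ (T j).S.card ≤ W := fun j => by rw [hNw]; simp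
  -- the narrow part
  have key := hC Nw T z H T ψ
    (fun v => (card_le_card (filter_subset_filter _ (subset_univ Nw))).trans (h2 v))
    (fun j _ => h3 j)
    ((sum_le_sum_of_subset_of_nonneg (subset_univ Nw) fun j _ _ => by positivity).trans h5)
    (fun v => (card_le_card (filter_subset_filter _ (subset_univ H))).trans (h2 v))
    ((sum_le_sum_of_subset_of_nonneg (by rw [hH]; exact filter_subset _ _)
      fun j _ _ => by positivity).trans h6) h4 W (fun j hj => (hmem j).1 hj)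
    (fun j hj => (hmem j).1 (by rw [hH] at hj; exact (mem_filter.1 hj).2)) Y δ hδ
    (hY.mono (by
      rw [hW]
      calc C * (2 * Nat.clog 2 n) = 2 * C * Nat.clog 2 n := by ring
        _ ≤ (2 * C + 2) * Nat.clog 2 n := Nat.mul_le_mul_right _ (by omega)))
  -- cardinalities
  have hcN : ((univ : Finset ι).card : ℝ) ≤ r * n := by
    exact_mod_cast bb_card (univ : Finset ι) T h2 fun j _ => h1 j
  have hc1 : (Nw.card : ℝ) ≤ r * n := by
    refine le_trans ?_ hcN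
    exact_mod_cast card_le_card (subset_univ Nw)
  have hc2 : (H.card : ℝ) ≤ r * n := by
    refine le_trans ?_ hcN
    exact_mod_cast card_le_card (subset_univ H)
  have hcard : ((Nw.card : ℝ) + H.card + 1) ≤ (2 * (r : ℝ) + 1) * n := by linarith
  have hδ1 := fd_pow hδ hn3 (show C + 1 ≤ 2 * C + 2 by omega) hδn
  have hδ2 := fd_pow hδ hn3 (show 2 ≤ 2 * C + 2 by omega) hδn
  have hC0 : (0 : ℝ) ≤ C := Nat.cast_nonneg _
  have e1 : δ * ((C : ℝ) * ((Nw.card : ℝ) + H.card + 1)) ^ C ≤ ε / 4 := by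
    have f2 : ((C : ℝ) * ((Nw.card : ℝ) + H.card + 1)) ^ C ≤
        ((C : ℝ) * (2 * (r : ℝ) + 1)) ^ C * (n : ℝ) ^ C := by
      rw [← mul_pow]
      refine pow_le_pow_left₀ (by positivity) ?_ C
      rw [mul_assoc]
      exact mul_le_mul_of_nonneg_left hcard hC0
    have f3 : ((C : ℝ) * (2 * (r : ℝ) + 1)) ^ C ≤ ε / 4 * n := by
      have f4 : (n₁ : ℝ) ≤ n := by exact_mod_cast hn1
      have := (hn₁.le).trans f4
      rw [div_le_iff₀ (by positivity)] at this
      linarith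
    calc δ * ((C : ℝ) * ((Nw.card : ℝ) + H.card + 1)) ^ C
        ≤ δ * (((C : ℝ) * (2 * (r : ℝ) + 1)) ^ C * (n : ℝ) ^ C) := mul_le_mul_of_nonneg_left f2 hδ
      _ ≤ δ * ((ε / 4 * n) * (n : ℝ) ^ C) := mul_le_mul_of_nonneg_left
          (mul_le_mul_of_nonneg_right f3 (by positivity)) hδ
      _ = ε / 4 * (δ * (n : ℝ) ^ (C + 1)) := by ring
      _ ≤ ε / 4 * 1 := mul_le_mul_of_nonneg_left hδ1 (by positivity)
      _ = ε / 4 := mul_one _
  -- the wide part
  obtain ⟨g', hg'⟩ : ∃ g' : Cube n → ℂ, g' = fun x => ψ (hx H T x) * tj Nw T z x := ⟨_, rfl⟩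
  have hg'n : ∀ x, ‖g' x‖ ≤ 1 := by
    intro x
    rw [hg']
    unfold tj
    rw [norm_mul, norm_prod]
    refine mul_le_one₀ (h4 _) (prod_nonneg fun j _ => norm_nonneg _) ?_
    refine prod_le_one (fun j _ => norm_nonneg _) fun j _ => ?_
    split_ifs
    · exact (h3 j).le
    · rw [norm_one]
  have hf0 : ∀ j x, 0 ≤ (T j).f x := fun j x => Dnf.one_nonneg _
  have hdiff : ∀ x, ‖g x - g' x‖ ≤ 2 * ∑ j ∈ univ \ Nw, (T j).f x := by
    intro x
    by_cases hw : ∃ j ∈ univ \ Nw, (T j).Sat x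
    · obtain ⟨j, hj, hs⟩ := hw
      have f1 : (T j).f x = 1 := Dnf.one_true hs
      have f2 : (T j).f x ≤ ∑ j ∈ univ \ Nw, (T j).f x :=
        single_le_sum (f := fun j => (T j).f x) (fun i _ => hf0 i x) hj
      have f3 := (norm_sub_le (g x) (g' x)).trans (add_le_add (hgn x) (hg'n x))
      linarith
    · push Not at hw
      have f1 : ∀ j, (T j).Sat x → j ∈ Nw := by
        intro j hs
        by_contra hj
        exact hw j (mem_sdiff.2 ⟨mem_univ j, hj⟩) hs
      have f2 : hx H T x = J.filter fun j => (T j).Sat x := by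
        ext j
        unfold Xg.hx
        rw [hH, mem_filter, mem_filter, mem_filter]
        constructor
        · rintro ⟨⟨a1, a2⟩, a3⟩
          exact ⟨a1, a3⟩
        · rintro ⟨a1, a3⟩
          exact ⟨⟨a1, f1 j a3⟩, a3⟩
      have f3 : tj Nw T z x = ∏ j, if (T j).Sat x then z j else 1 := by
        unfold tj
        refine prod_subset (subset_univ Nw) fun j _ hj => ?_
        exact if_neg fun hs => hj (f1 j hs)
      have f4 : g x = g' x := by
        rw [h7, hg']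
        unfold tt
        simp only [f2, f3]
      rw [f4, sub_self, norm_zero]
      exact mul_nonneg (by norm_num) (sum_nonneg fun j _ => hf0 j x)
  have hW2 : ((1 : ℝ) / 2) ^ W ≤ 1 / (n : ℝ) ^ 2 := by
    rw [hW, one_div_pow]
    apply one_div_le_one_div_of_le (by positivity)
    rw [mul_comm, pow_mul]
    exact pow_le_pow_left₀ (by positivity) (Xp.ma_clog' n) _
  have hav : ∀ {Ω' : Type} [Fintype Ω'] [Nonempty Ω'] (X : Ω' → Cube n), BiasD W δ X →
      ‖(av fun ω => g (X ω)) - av fun ω => g' (X ω)‖ ≤ ε / 4 := by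
    intro Ω' _ _ X hX
    rw [← Xp.gt_av_sub]
    refine (norm_av_le _).trans ((avg_mono fun ω => hdiff (X ω)).trans ?_)
    rw [avg_mul_left, avg_sum]
    have f1 : ∑ j ∈ univ \ Nw, (avg fun ω => (T j).f (X ω)) ≤
        ∑ j ∈ univ \ Nw, (1 / (n : ℝ) ^ 2 + δ) := by
      refine sum_le_sum fun j hj => ?_
      have hj' : W ≤ (T j).S.card := by
        have := (mem_sdiff.1 hj).2
        rw [hmem, not_le] at this
        exact this.le
      exact (fd_wide hδ hX (T j) hj').trans (add_le_add_left hW2 δ)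
    have f2 : ∑ j ∈ univ \ Nw, (1 / (n : ℝ) ^ 2 + δ) ≤ r * n * (1 / (n : ℝ) ^ 2 + δ) := by
      rw [sum_const, nsmul_eq_mul]
      refine mul_le_mul_of_nonneg_right ?_ (by positivity)
      refine le_trans ?_ hcN
      exact_mod_cast card_le_card (sdiff_subset)
    have f3 : (n : ℝ) * (1 / (n : ℝ) ^ 2 + δ) ≤ 2 / n := by
      rw [le_div_iff₀ hnp]
      have f4 : (n : ℝ) * (1 / (n : ℝ) ^ 2 + δ) * n = 1 + δ * (n : ℝ) ^ 2 := by
        field_simp
      rw [f4]
      linarith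
    have f5 : 2 * (r * n * (1 / (n : ℝ) ^ 2 + δ)) ≤ ε / 4 := by
      have f6 : 16 * (r : ℝ) / ε ≤ n := by
        have : (n₂ : ℝ) ≤ n := by exact_mod_cast hn2
        linarith
      rw [div_le_iff₀ hε] at f6
      calc 2 * ((r : ℝ) * n * (1 / (n : ℝ) ^ 2 + δ)) = 2 * (r : ℝ) * (n * (1 / (n : ℝ) ^ 2 + δ)) := by
            ring
        _ ≤ 2 * (r : ℝ) * (2 / n) := mul_le_mul_of_nonneg_left f3 (by positivity)
        _ = 4 * (r : ℝ) / n := by ring
        _ ≤ ε / 4 := by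
            rw [div_le_iff₀ hnp]
            linarith
    linarith
  have hYW : BiasD W δ Y := hY.mono (by rw [hW]; exact Nat.mul_le_mul_right _ (by omega))
  have hU : BiasD W δ (fun x : Cube n => x) := by
    intro S hS _
    have : (avg fun x : Cube n => ch S x) = 0 := by
      rw [Xp.avg_E, Dnf.E_ch, if_neg hS]
    rw [this, abs_zero]
    exact hδ
  have e2 := hav Y hYW
  have e3 := hav (fun x : Cube n => x) hU
  have e4 : ‖(av fun ω => g' (Y ω)) - av g'‖ ≤ ε / 4 + ε / 4 := by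
    have f1 : (av fun ω => g' (Y ω)) = av fun ω => ψ (hx H T (Y ω)) * tj Nw T z (Y ω) := by
      rw [hg']
    have f2 : av g' = av fun x => ψ (hx H T x) * tj Nw T z x := by
      rw [hg']
    rw [f1, f2]
    exact key.trans (add_le_add_right e1 _)
  have e5 : (av fun ω => g (Y ω)) - av g = ((av fun ω => g (Y ω)) - av fun ω => g' (Y ω)) +
      ((av fun ω => g' (Y ω)) - av g') - ((av fun x : Cube n => g x) - av fun x : Cube n => g' x) := by
    have f1 : (av fun x : Cube n => g x) = av g := rfl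
    have f2 : (av fun x : Cube n => g' x) = av g' := rfl
    rw [f1, f2]
    ring
  rw [e5]
  refine (norm_sub_le _ _).trans ?_
  have e6 := norm_add_le ((av fun ω => g (Y ω)) - av fun ω => g' (Y ω))
    ((av fun ω => g' (Y ω)) - av g')
  linarith

end Pool.Agent.MP_ca1109_lc.Xs
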