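import Pool.Agent.MP_ca1109_lc.Xs.FN
import Pool.Agent.MP_ca1109_lc.Xs.FD
import Pool.Agent.MP_ca1109_lc.Xs.CD

/-!
# Every string whose parities of `O(log n)` bits have small bias fools the class of threshold gates
-/

namespace Pool.Agent.MP_ca1109_lc.Xs

open Finset Pool.Agent.H66 Pool.Agent.MP_ca1109_lc.Mpg Pool.Agent.MP_ca1109_lc.Agp
open Pool.Agent.MP_ca1109_lc.Dnf (Cube ch one Term)
open Pool.Agent.MP_ca1109_lc.Xl (Tr pr)
open Pool.Agent.MP_ca1109_lc.Xp (Bias)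
open Pool.Agent.MP_ca1109_lc.Xa (PB FP)
open Pool.Agent.MP_ca1109_lc.Pb (At FoolA)
open Pool.Agent.MP_ca1109_lc.Xu (litSum)
open Pool.Agent.MP_ca1109_lc.Xd (fx lf ft_leaf ft_unif ft_ofReal)
open Pool.Agent.MP_ca1109_lc.Xr (Gr gr_real str_gr)

variable {n : ℕ}

/-! ## The products over the trivial monoid -/

theorem sb_pb {r : ℕ} {K V : ℝ} {f : Cube n → ℂ}
    (h : PB (⊥ : Submonoid (Cube n → ℂ)) r 1 K V f) : At r K V f := by
  obtain ⟨u, hu, ι, i1, T, M, ζ, g, h1, h2, h3, h4, h5⟩ := h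
  have hu1 : u = 1 := Submonoid.mem_bot.1 hu
  have e : f = g := by
    funext x
    have h9 : pr T ζ M x = 1 := by
      unfold pr
      refine prod_eq_one fun m hm => ?_
      have := h3 m hm
      rw [pow_one] at this
      rw [this, ite_self]
    rw [h5, hu1, h9]
    show (1 : ℂ) * _ = _
    rw [one_mul, one_mul]
  rw [e]
  exact h4

theorem sb_fp {r : ℕ} {K V ε : ℝ} {Ω : Type} [Fintype Ω] {X : Ω → Cube n}
    (h : FoolA r K V ε X) : FP (⊥ : Submonoid (Cube n → ℂ)) r 1 K V ε X :=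
  fun f hf => h f (sb_pb hf)

/-! ## Functions of gates -/

theorem nd_gr {r : ℕ} {g : Cube n → Bool} (h : Rt r g ∨ Lin 0 g) :
    Gr (⊥ : Submonoid (Cube n → ℂ)) r 1 0 g := by
  rcases h with ⟨N, S, y, w, θ, hr, hg⟩ | ⟨m, ℓ, A, hA, hg⟩
  · exact gr_real hr hg
  · refine gr_real (N := 0) (S := Fin.elim0) (y := Fin.elim0) (w := Fin.elim0) (θ := 1)
      (fun i => ?_) fun x => ?_
    · refine le_trans (le_of_eq ?_) (Nat.zero_le r)
      rw [Set.ncard_eq_zero]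
      ext m
      exact m.elim0
    · have h1 : A = ∅ := card_eq_zero.1 (Nat.le_zero.1 hA)
      have h2 : litSum (Fin.elim0 : Fin 0 → Finset (Fin n)) Fin.elim0
          (Fin.elim0 : Fin 0 → ℝ) x = 0 := by
        unfold Xu.litSum
        simp
      rw [hg, h1, h2]
      simp

/-- Strings whose short parities have small bias fool the functions of `k` gates. -/
theorem base_strD (r k : ℕ) {ε : ℝ} (hε : 0 < ε) : ∃ C n₀ : ℕ, ∀ n ≥ n₀,
    ∀ (Ω : Type) [Fintype Ω] [Nonempty Ω] (Y : Ω → Cube n) (δ : ℝ), 0 ≤ δ →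
      δ * (n : ℝ) ^ C ≤ 1 → BiasD (C * Nat.clog 2 n) δ Y → ∀ f : Cube n → Bool, RtTest r 0 k f →
        |(avg fun ω => ind (f (Y ω))) - avg fun x : Cube n => ind (f x)| ≤ ε := by
  obtain ⟨R, K, V, ε₀, hK, hV, hε₀, HS⟩ := str_gr r 1 0 k hε
  obtain ⟨C, n₀, HF⟩ := fool_biasD R K V hε₀
  refine ⟨C, n₀, fun n hn Ω _ _ Y δ hδ hδn hY f hf => ?_⟩
  obtain ⟨g, F, hg, hf⟩ := hf
  have h1 := HS n ⊥ g F (fun i => nd_gr (hg i)) Y (sb_fp (HF n hn Y δ hδ hδn hY))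
  simpa only [hf] using h1

/-! ## The leaves -/

/-- Strings whose short parities have small bias fool the functions of `k` gates at every leaf of
logarithmic depth. -/
theorem leaf_strD (r k e : ℕ) {ε : ℝ} (hε : 0 < ε) : ∃ C n₀ : ℕ, ∀ n ≥ n₀,
    ∀ (Ω : Type) [Fintype Ω] [Nonempty Ω] (Y : Ω → Cube n) (δ : ℝ), 0 ≤ δ →
      δ * (n : ℝ) ^ C ≤ 1 → BiasD (C * Nat.clog 2 n) δ Y →
      LeafY Y (fun _ => RtTest r 0 k) (e * Nat.clog 2 n) ε := by
  classical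
  obtain ⟨C₀, n₀, HF⟩ := base_strD r k (show 0 < ε / 2 by positivity)
  obtain ⟨n₁, hn₁⟩ := exists_nat_gt (2 / ε)
  refine ⟨C₀ + (2 * e + 2), max n₀ (max n₁ 4), fun n hn Ω _ _ Y δ hδ hδn hY L a hL => ?_⟩
  have hn0 : n₀ ≤ n := (le_max_left _ _).trans hn
  have hn1 : n₁ ≤ n := (le_max_left _ _).trans ((le_max_right _ _).trans hn)
  have hn4 : 4 ≤ n := (le_max_right _ _).trans ((le_max_right _ _).trans hn)
  have hnr : (4 : ℝ) ≤ n := by exact_mod_cast hn4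
  have hnp : (0 : ℝ) < n := by linarith
  have hnn : (1 : ℝ) ≤ n := by linarith
  have hnε : 2 / ε ≤ n := by
    have : (n₁ : ℝ) ≤ n := by exact_mod_cast hn1
    linarith
  -- the depth
  have h2L : (2 : ℝ) ^ L.card ≤ (n : ℝ) ^ (2 * e) := by
    have h1 : (2 : ℝ) ^ Nat.clog 2 n ≤ (n : ℝ) ^ 2 := by
      refine (Xp.ma_clog n).trans ?_
      nlinarith
    calc (2 : ℝ) ^ L.card ≤ 2 ^ (e * Nat.clog 2 n) := pow_le_pow_right₀ (by norm_num) hL
      _ = (2 ^ Nat.clog 2 n) ^ e := by rw [mul_comm, pow_mul]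
      _ ≤ ((n : ℝ) ^ 2) ^ e := pow_le_pow_left₀ (by positivity) h1 e
      _ = (n : ℝ) ^ (2 * e) := by rw [← pow_mul]
  have hC₀ : (1 : ℝ) ≤ (n : ℝ) ^ C₀ := one_le_pow₀ hnn
  have h2p : (0 : ℝ) < 2 ^ L.card := by positivity
  have hA : δ * 2 ^ L.card * (n : ℝ) ^ C₀ * (n : ℝ) ^ 2 ≤ 1 := by
    refine le_trans ?_ hδn
    calc δ * 2 ^ L.card * (n : ℝ) ^ C₀ * (n : ℝ) ^ 2 =
        δ * (n : ℝ) ^ C₀ * (n : ℝ) ^ 2 * 2 ^ L.card := by ring
      _ ≤ δ * (n : ℝ) ^ C₀ * (n : ℝ) ^ 2 * (n : ℝ) ^ (2 * e) :=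
          mul_le_mul_of_nonneg_left h2L (by positivity)
      _ = δ * (n : ℝ) ^ (C₀ + (2 * e + 2)) := by rw [pow_add, pow_add]; ring
  have hB : δ * 2 ^ L.card * (n : ℝ) ^ 2 ≤ 1 := by
    refine le_trans ?_ hA
    calc δ * 2 ^ L.card * (n : ℝ) ^ 2 = δ * 2 ^ L.card * (n : ℝ) ^ 2 * 1 := by ring
      _ ≤ δ * 2 ^ L.card * (n : ℝ) ^ 2 * (n : ℝ) ^ C₀ :=
          mul_le_mul_of_nonneg_left hC₀ (by positivity)
      _ = _ := by ring
  have hδL : δ * 2 ^ L.card * n ≤ 1 := by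
    refine le_trans ?_ hB
    exact mul_le_mul_of_nonneg_left (by nlinarith) (by positivity)
  have hδL0 : (0 : ℝ) ≤ δ * 2 ^ L.card := by positivity
  have hhalf : δ * 2 ^ L.card ≤ 1 / 2 := by nlinarith
  have hεL : δ * 2 ^ L.card ≤ ε / 2 := by
    have h1 : 2 ≤ n * ε := by rwa [div_le_iff₀ hε] at hnε
    by_contra hcon
    push Not at hcon
    have h2 : ε / 2 * n < δ * 2 ^ L.card * n := mul_lt_mul_of_pos_right hcon hnp
    linarith
  have hYL : BiasD (L.card + C₀ * Nat.clog 2 n) δ Y := hY.mono (by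
    calc L.card + C₀ * Nat.clog 2 n ≤ e * Nat.clog 2 n + C₀ * Nat.clog 2 n :=
          Nat.add_le_add_right hL _
      _ = (e + C₀) * Nat.clog 2 n := by ring
      _ ≤ (C₀ + (2 * e + 2)) * Nat.clog 2 n := Nat.mul_le_mul_right _ (by omega))
  obtain ⟨hPr', Ω', i1, i2, Y', hBi, hlf⟩ := czD hδ L hYL hhalf a
  obtain ⟨D, hD⟩ : ∃ D : ℝ, D = (1 / 2) ^ L.card := ⟨_, rfl⟩
  have hD0 : 0 < D := by rw [hD]; positivity
  have hDD : D * 2 ^ L.card = 1 := by
    rw [hD, ← mul_pow]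
    norm_num
  have hδD : δ ≤ ε / 2 * D := by
    have h1 := mul_le_mul_of_nonneg_left hεL hD0.le
    have h2 : D * (δ * 2 ^ L.card) = δ * (D * 2 ^ L.card) := by ring
    rw [h2, hDD, mul_one] at h1
    linarith
  have hPr := hPr'.trans hδD
  have hX : ∀ f : Cube n → Bool, RtTest r 0 k f →
      |(avg fun ω => ind (f (Y' ω))) - avg fun x : Cube n => ind (f x)| ≤ ε / 2 := by
    refine HF n hn0 Ω' Y' (2 ^ (L.card + 1) * δ) (by positivity) ?_ hBi
    calc 2 ^ (L.card + 1) * δ * (n : ℝ) ^ C₀ = δ * 2 ^ L.card * (n : ℝ) ^ C₀ * 2 := by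
          rw [pow_succ]; ring
      _ ≤ δ * 2 ^ L.card * (n : ℝ) ^ C₀ * (n : ℝ) ^ 2 :=
          mul_le_mul_of_nonneg_left (by nlinarith) (by positivity)
      _ ≤ 1 := hA
  rw [← hD]
  refine ⟨by rw [hD] at hPr ⊢; exact hPr.trans (mul_le_mul_of_nonneg_right (by linarith)
    (by positivity)), ?_⟩
  intro f hf
  have h1 := hX _ (hf.fx L a)
  have h2 := hlf (fun y => ((ind (f (Xd.fx L a y)) : ℝ) : ℂ))
  simp only [ft_leaf] at h2
  rw [ft_ofReal, ft_ofReal, ← Complex.ofReal_mul] at h2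
  have h3 := Complex.ofReal_injective h2
  rw [h3, ft_unif]
  obtain ⟨Pr, hPd⟩ : ∃ Pr : ℝ, Pr = avg fun ω => one (Tr L a (Y ω)) := ⟨_, rfl⟩
  obtain ⟨A', hA'⟩ : ∃ A' : ℝ, A' = avg fun ω' : Ω' => ind (f (Xd.fx L a (Y' ω'))) := ⟨_, rfl⟩
  obtain ⟨A, hA1⟩ : ∃ A : ℝ, A = avg fun x : Cube n => ind (f (Xd.fx L a x)) := ⟨_, rfl⟩
  have hA0 : 0 ≤ A' := by
    rw [hA']
    exact avg_nonneg fun ω => by unfold ind; split_ifs <;> norm_num
  have hA2 : A' ≤ 1 := by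
    rw [hA']
    refine (avg_mono (g := fun _ => (1 : ℝ)) fun ω => ?_).trans (le_of_eq (avg_const _))
    unfold ind
    split_ifs <;> norm_num
  rw [← hPd, ← hA', ← hA1, ← hD]
  rw [← hPd, ← hD] at hPr
  rw [← hA', ← hA1] at h1
  have h4 : Pr * A' - D * A = (Pr - D) * A' + D * (A' - A) := by ring
  rw [h4]
  refine (abs_add_le _ _).trans ?_
  rw [abs_mul, abs_mul, abs_of_nonneg hA0, abs_of_pos hD0]
  have h5 : |Pr - D| * A' ≤ ε / 2 * D := by
    calc |Pr - D| * A' ≤ |Pr - D| * 1 := mul_le_mul_of_nonneg_left hA2 (abs_nonneg _)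
      _ ≤ ε / 2 * D := by rw [mul_one]; exact hPr
  have h6 : D * |A' - A| ≤ D * (ε / 2) := mul_le_mul_of_nonneg_left h1 hD0.le
  linarith

/-! ## The theorem -/

/-- Every string whose short parities have small bias fools the functions of threshold gates on the
subcubes of partitions of small average codimension. -/
theorem part_foolsD (r k h : ℕ) {ε : ℝ} (hε : 0 < ε) : ∃ C n₀ : ℕ, ∀ n ≥ n₀,
    ∀ (Ω : Type) [Fintype Ω] [Nonempty Ω] (Y : Ω → Cube n) (δ : ℝ), 0 ≤ δ →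
      δ * (n : ℝ) ^ C ≤ 1 → BiasD (C * Nat.clog 2 n) δ Y → ∀ f : Cube n → Bool,
        PartTest r 0 k h n f →
        |(avg fun ω => ind (f (Y ω))) - avg fun x : Cube n => ind (f x)| ≤ ε := by
  classical
  obtain ⟨M, hM⟩ := exists_nat_gt (4 * (h : ℝ) / ε)
  obtain ⟨ε₁, hε₁⟩ : ∃ ε₁ : ℝ, ε₁ = min 1 (ε / 8) := ⟨_, rfl⟩
  have hε₁0 : 0 < ε₁ := by
    rw [hε₁]
    exact lt_min one_pos (by positivity)
  have hε₁1 : ε₁ ≤ 1 := by rw [hε₁]; exact min_le_left _ _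
  have hε₁2 : ε₁ ≤ ε / 8 := by rw [hε₁]; exact min_le_right _ _
  obtain ⟨C, n₀, HC⟩ := leaf_strD r k (M + (h + 1)) hε₁0
  obtain ⟨n₁, hn₁⟩ := exists_nat_gt (24 * (k : ℝ) / ε)
  refine ⟨C, max n₀ (max n₁ 2), fun n hn Ω _ _ Y δ hδ hδn hY f hf => ?_⟩
  have hn0 : n₀ ≤ n := (le_max_left _ _).trans hn
  have hn1 : n₁ ≤ n := (le_max_left _ _).trans ((le_max_right _ _).trans hn)
  have hn2 : 2 ≤ n := (le_max_right _ _).trans ((le_max_right _ _).trans hn)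
  have hnr : (2 : ℝ) ≤ n := by exact_mod_cast hn2
  have hnp : (0 : ℝ) < n := by linarith
  have hl := HC n hn0 Ω Y δ hδ hδn hY
  rw [add_mul] at hl
  have hw : (((k * n ^ h : ℕ) : ℝ)) * (3 * (1 / 2) ^ ((h + 1) * Nat.clog 2 n)) ≤ ε / 4 / 2 := by
    have h1 : ((1 : ℝ) / 2) ^ ((h + 1) * Nat.clog 2 n) ≤ 1 / (n : ℝ) ^ (h + 1) := by
      rw [one_div_pow]
      apply one_div_le_one_div_of_le (by positivity)
      rw [mul_comm, pow_mul]
      exact pow_le_pow_left₀ (by positivity) (Xp.ma_clog' n) _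
    have h5 : 24 * (k : ℝ) / ε ≤ n := by
      have : (n₁ : ℝ) ≤ n := by exact_mod_cast hn1
      linarith
    have h6 : 24 * (k : ℝ) ≤ n * ε := by
      rwa [div_le_iff₀ hε] at h5
    calc (((k * n ^ h : ℕ) : ℝ)) * (3 * (1 / 2) ^ ((h + 1) * Nat.clog 2 n)) ≤
        (((k * n ^ h : ℕ) : ℝ)) * (3 * (1 / (n : ℝ) ^ (h + 1))) :=
          mul_le_mul_of_nonneg_left (by linarith) (Nat.cast_nonneg _)
      _ = 3 * k / n := by
        push_cast
        rw [pow_succ]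
        field_simp
      _ ≤ ε / 4 / 2 := by
        rw [div_le_iff₀ hnp]
        linarith
  have h1 := wide_str Y (P := RtTest r 0 k) (D := M * Nat.clog 2 n)
    (W := (h + 1) * Nat.clog 2 n) (N₁ := k * n ^ h) (ε := ε / 4) hε₁0.le hε₁1 (by linarith) hw hl
  exact avg_str Y hε hM (Nat.clog_pos (by norm_num) hn2)
    (h1.mono fun L f hf => hf.up) hf

/-- Every string whose short parities have small bias fools the class, for all lengths. -/
theorem str_foolsD (r k h : ℕ) {ε : ℝ} (hε : 0 < ε) : ∃ C : ℕ, 0 < C ∧ ∀ (n : ℕ)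
    (Ω : Type) [Fintype Ω] [Nonempty Ω] (Y : Ω → Cube n) (δ : ℝ), 0 ≤ δ →
      δ * ((n : ℝ) + 1) ^ C ≤ 1 → BiasD (C * Nat.clog 2 (n + 1)) δ Y →
      ∀ f : Cube n → Bool, PartTest r 0 k h n f →
        |(avg fun ω => ind (f (Y ω))) - avg fun x : Cube n => ind (f x)| ≤ ε := by
  classical
  obtain ⟨C, n₀, HC⟩ := part_foolsD r k h hε
  obtain ⟨D, hD⟩ := exists_nat_gt ((2 : ℝ) ^ n₀ / ε)
  have hDpos : 0 < D := by
    have : (0 : ℝ) < D := lt_of_le_of_lt (by positivity) hD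
    exact_mod_cast this
  refine ⟨C + D + n₀, by omega, fun n Ω _ _ Y δ hδ hδn hY f hf => ?_⟩
  have hn0 : (0 : ℝ) ≤ n := Nat.cast_nonneg n
  by_cases hn : n₀ ≤ n
  · have h1 : δ * (n : ℝ) ^ C ≤ 1 := by
      refine le_trans (mul_le_mul_of_nonneg_left ?_ hδ) hδn
      calc (n : ℝ) ^ C ≤ ((n : ℝ) + 1) ^ C := pow_le_pow_left₀ hn0 (by linarith) C
        _ ≤ ((n : ℝ) + 1) ^ (C + D + n₀) := pow_le_pow_right₀ (by linarith) (by omega)
    refine HC n hn Ω Y δ hδ h1 (hY.mono ?_) f hf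
    exact Nat.mul_le_mul (by omega) (Nat.clog_mono_right 2 (Nat.le_succ n))
  · push Not at hn
    rcases Nat.eq_zero_or_pos n with rfl | hpos
    · have h1 : ∀ x : Cube 0, f x = f Fin.elim0 := fun x => congrArg f (funext fun i => i.elim0)
      rw [show (fun ω => ind (f (Y ω))) = fun _ => ind (f Fin.elim0) from funext fun ω => by rw [h1],
        show (fun x : Cube 0 => ind (f x)) = fun _ => ind (f Fin.elim0) from
          funext fun x => by rw [h1], avg_const, avg_const, sub_self, abs_zero]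
      exact hε.le
    · have hclog : 0 < Nat.clog 2 (n + 1) := Nat.clog_pos (by norm_num) (by omega)
      have hY' : Bias δ Y := by
        refine biasD_all hY ?_
        calc n ≤ n₀ * 1 := by omega
          _ ≤ (C + D + n₀) * Nat.clog 2 (n + 1) := Nat.mul_le_mul (by omega) hclog
      refine (rd_small hδ hY' f).trans ?_
      have hn1 : (1 : ℝ) ≤ n := by exact_mod_cast hpos
      have h2D : (D : ℝ) ≤ 2 ^ D := by exact_mod_cast (Nat.lt_two_pow_self).le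
      have h1 : (2 : ℝ) ^ D ≤ ((n : ℝ) + 1) ^ (C + D + n₀) := by
        calc (2 : ℝ) ^ D ≤ ((n : ℝ) + 1) ^ D := pow_le_pow_left₀ (by norm_num) (by linarith) D
          _ ≤ _ := pow_le_pow_right₀ (by linarith) (by omega)
      have h3 : δ * D ≤ 1 := (mul_le_mul_of_nonneg_left (h2D.trans h1) hδ).trans hδn
      have h4 : (2 : ℝ) ^ n ≤ 2 ^ n₀ := pow_le_pow_right₀ (by norm_num) hn.le
      have h5 : (2 : ℝ) ^ n₀ ≤ D * ε := by
        have := hD.le
        rwa [div_le_iff₀ hε] at this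
      calc δ * 2 ^ n ≤ δ * (D * ε) := mul_le_mul_of_nonneg_left (h4.trans h5) hδ
        _ = δ * D * ε := by ring
        _ ≤ 1 * ε := mul_le_mul_of_nonneg_right h3 hε.le
        _ = ε := one_mul ε

/-- Every probability distribution whose parities of `O(log n)` bits have polynomially small bias fools
the class of threshold gates. -/
theorem short_bias (r k h : ℕ) {ε : ℝ} (hε : 0 < ε) : ∃ C : ℕ, ∀ (n : ℕ)
    (p : (Fin n → Bool) → ℝ) (δ : ℝ), SmallBias (C * Nat.clog 2 (n + 1)) δ p →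
      δ * ((n : ℝ) + 1) ^ C ≤ 1 → ∀ f : (Fin n → Bool) → Bool, PartTest r 0 k h n f →
        |(∑ x, if f x = true then p x else 0) - prob f| ≤ ε := by
  obtain ⟨C, hC0, HC⟩ := str_foolsD r k h (show 0 < ε / 2 by positivity)
  refine ⟨C + 1, fun n p δ hp hδn f hf => ?_⟩
  refine rd_final (𝒯 := PartTest r 0 k h) (D := fun n => (C + 1) * Nat.clog 2 (n + 1)) (C := C) hε
    (fun n hn => ?_) (fun n Ω _ _ Y δ hδ hδn hY f hf => ?_) n p δ hp hδn f hf
  · exact Nat.mul_pos (Nat.succ_pos C) (Nat.clog_pos (by norm_num) (by omega))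
  · exact HC n Ω Y δ hδ hδn (hY.mono (Nat.mul_le_mul_right _ (Nat.le_succ C))) f hf

end Pool.Agent.MP_ca1109_lc.Xs

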