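import Pool.Agent.MP_ca1109_lc.Xs.LG
import Pool.Agent.MP_ca1109_lc.Xs.ND

/-!
# The three statements together
-/

namespace Pool.Agent.MP_ca1109_lc.Xs

open Pool.Agent.MP_ca1109_lc.Mpg

variable {n : ℕ}

theorem mn_pow {δ : ℝ} {C C' : ℕ} (hC : C' ≤ C) (h : δ * ((n : ℝ) + 1) ^ C ≤ 1) :
    δ * ((n : ℝ) + 1) ^ C' ≤ 1 := by
  have hn : (0 : ℝ) ≤ n := Nat.cast_nonneg n
  rcases le_total 0 δ with hδ | hδ
  · exact (mul_le_mul_of_nonneg_left (pow_le_pow_right₀ (by linarith) hC) hδ).trans h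
  · have : δ * ((n : ℝ) + 1) ^ C' ≤ 0 := mul_nonpos_of_nonpos_of_nonneg hδ (by positivity)
    linarith

theorem SmallBias.mono {D D' : ℕ} {δ : ℝ} {p : (Fin n → Bool) → ℝ} (h : SmallBias D' δ p)
    (hD : D ≤ D') : SmallBias D δ p :=
  ⟨h.1, h.2.1, fun S hS hc => h.2.2 S hS (hc.trans hD)⟩

theorem main (r B k h : ℕ) {ε : ℝ} (hε : 0 < ε) :
    (∃ C : ℕ, ∀ (n : ℕ) (p : (Fin n → Bool) → ℝ) (δ : ℝ), δ * ((n : ℝ) + 1) ^ C ≤ 1 →
      (SmallBias (C * Nat.clog 2 (n + 1)) δ p → ∀ f : (Fin n → Bool) → Bool,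
        PartTest r 0 k h n f → |(∑ x, if f x = true then p x else 0) - prob f| ≤ ε) ∧
      (SmallBias n δ p → ∀ f : (Fin n → Bool) → Bool,
        SbTest r B k h n f → |(∑ x, if f x = true then p x else 0) - prob f| ≤ ε)) ∧
    LogGen (SbTest r B k h) ε := by
  refine ⟨?_, logGen_sb r B k h hε⟩
  obtain ⟨C₁, h₁⟩ := short_bias r k h hε
  obtain ⟨C₂, h₂⟩ := small_bias r B k h hε
  refine ⟨max C₁ C₂, fun n p δ hδ => ⟨fun hp f hf => ?_, fun hp f hf => ?_⟩⟩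
  · exact h₁ n p δ (hp.mono (Nat.mul_le_mul_right _ (le_max_left _ _)))
      (mn_pow (le_max_left _ _) hδ) f hf
  · exact h₂ n p δ hp (mn_pow (le_max_right _ _) hδ) f hf

end Pool.Agent.MP_ca1109_lc.Xs
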