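import Pool.Agent.MP_ca1109_lc.Xu.Test

/-!
# Small bias, parities, thresholds of conjunctions, partitions of small average codimension
-/

namespace Pool.Agent.MP_ca1109_lc.Xs

open Pool.Agent.MP_ca1109_lc.Xu (litSum)

/-- The parity of the bits of `x` in `S`. -/
def par {n : ℕ} (S : Finset (Fin n)) (x : Fin n → Bool) : Bool :=
  decide (Odd (S.filter fun i => x i = true).card)

/-- `p` is a probability distribution on the cube, under which every nonempty parity of at most `D`
bits is even and odd with probabilities which differ by at most `δ`. For `D = n` this says that `p` has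
bias at most `δ`; for `δ = 0` it says that `p` is `D`-wise independent. -/
def SmallBias {n : ℕ} (D : ℕ) (δ : ℝ) (p : (Fin n → Bool) → ℝ) : Prop :=
  (∀ x, 0 ≤ p x) ∧ ∑ x, p x = 1 ∧ ∀ S : Finset (Fin n), S.Nonempty → S.card ≤ D →
    |∑ x, p x * (if par S x = true then -1 else 1)| ≤ δ

/-- A threshold gate with real weights over a list of conjunctions of literals, of any length and any
widths: `g x` is true if the sum of the weights of the true conjunctions is at least `θ`. At most `V`
of the conjunctions, those in `X`, each of which has more than `W` literals in variables not in `L`,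
are exempt; every variable occurs in at most `r` of the others. -/
def Thr (r V W : ℕ) {n : ℕ} (L : Finset (Fin n)) (g : (Fin n → Bool) → Bool) : Prop :=
  ∃ (N : ℕ) (S : Fin N → Finset (Fin n)) (y : Fin N → Fin n → Bool) (X : Finset (Fin N))
    (w : Fin N → ℝ) (θ : ℝ),
    X.card ≤ V ∧ (∀ m ∈ X, W < (S m \ L).card) ∧ (∀ i, {m | m ∉ X ∧ i ∈ S m}.ncard ≤ r) ∧
    ∀ x, g x = true ↔ θ ≤ litSum S y w x

/-- A gate which tests whether the vector of any number `m` of parities of `x` is one of at most `B`
given vectors. For instance, `x` satisfies a system of any number of linear equations over the field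
with two elements. -/
def Lin (B : ℕ) {n : ℕ} (g : (Fin n → Bool) → Bool) : Prop :=
  ∃ (m : ℕ) (ℓ : Fin m → Finset (Fin n)) (A : Finset (Fin m → Bool)),
    A.card ≤ B ∧ ∀ x, g x = true ↔ (fun i => par (ℓ i) x) ∈ A

/-- `f` is an arbitrary Boolean function of `k` gates, each of which is a threshold gate or a gate
which tests parities. -/
def GateTest (r B k V W : ℕ) {n : ℕ} (L : Finset (Fin n)) (f : (Fin n → Bool) → Bool) : Prop :=
  ∃ (g : Fin k → (Fin n → Bool) → Bool) (F : (Fin k → Bool) → Bool),
    (∀ j, Thr r V W L (g j) ∨ Lin B (g j)) ∧ ∀ x, f x = F fun j => g j x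

/-- The cube is partitioned into subcubes (the subcube `j` is given by the values `a j` of the bits in
`L j`), of average codimension at most `D`: this is the sum of `|L j| 2 ^ (-|L j|)`, the average of
`|L j|` for the subcube `j` of a random point. On each subcube `f` agrees with a function in `P` for
`L j`. For instance, the subcubes are the leaves of a decision tree of average depth at most `D`. -/
def AvgPart {n : ℕ} (P : Finset (Fin n) → ((Fin n → Bool) → Bool) → Prop) (D : ℕ)
    (f : (Fin n → Bool) → Bool) : Prop :=
  ∃ (N : ℕ) (L : Fin N → Finset (Fin n)) (a : Fin N → Fin n → Bool)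
    (g : Fin N → (Fin n → Bool) → Bool),
    ∑ j, ((L j).card : ℝ) * (1 / 2) ^ (L j).card ≤ D ∧
    (∀ x : Fin n → Bool, ∃! j, ∀ i ∈ L j, x i = a j i) ∧ (∀ j, P (L j) (g j)) ∧
    ∀ (j : Fin N) (x : Fin n → Bool), (∀ i ∈ L j, x i = a j i) → f x = g j x

/-- On each of any number of subcubes of average codimension at most `h ⌈log₂ n⌉`, `f` is an arbitrary
Boolean function of `k` gates; in each threshold gate at most `n ^ h` conjunctions, of more than
`(h + 1) ⌈log₂ n⌉` literals in variables which are free in the subcube, are exempt from the bound `r`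
on the occurrences of the variables. For `B = 0` the gates are threshold gates (and the constant
`false`). -/
def PartTest (r B k h n : ℕ) (f : (Fin n → Bool) → Bool) : Prop :=
  AvgPart (GateTest r B k (n ^ h) ((h + 1) * Nat.clog 2 n)) (h * Nat.clog 2 n) f

/-- The affine map over the field with two elements, whose bit `i` is the parity of the bits in `ℓ i`,
plus `b i`. -/
def aff {n : ℕ} (ℓ : Fin n → Finset (Fin n)) (b : Fin n → Bool) (x : Fin n → Bool) :
    Fin n → Bool := fun i => xor (par (ℓ i) x) (b i)

/-- `f` is the composition of an affine bijection with a function in `PartTest`. -/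
def SbTest (r B k h n : ℕ) (f : (Fin n → Bool) → Bool) : Prop :=
  ∃ (ℓ : Fin n → Finset (Fin n)) (b : Fin n → Bool) (g : (Fin n → Bool) → Bool),
    Function.Bijective (aff ℓ b) ∧ PartTest r B k h n g ∧ ∀ x, f x = g (aff ℓ b x)

end Pool.Agent.MP_ca1109_lc.Xs
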