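import Pool.Agent.MP_ca1109_lc.Xs.DG

/-!
# A bounded function of the heavy narrow terms times a product of unimodular weights, for strings whose
# short parities have small bias
-/

namespace Pool.Agent.MP_ca1109_lc.Xs

open Finset Pool.Agent.MP_ca1109_lc.Mpg Pool.Agent.MP_ca1109_lc.Agp Pool.Agent.MP_ca1109_lc.Xp
open Pool.Agent.MP_ca1109_lc.Xg
open Pool.Agent.MP_ca1109_lc
open Pool.Agent.MP_ca1109_lc.Dnf (Cube ch one E Term E_add E_sub E_smul E_const E_sum E_mono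
  E_nonneg E_term L1_term On)

variable {n : ℕ}

/-- Small bias of the short parities fools a bounded function of the true heavy narrow terms times a
product of unimodular weights of narrow terms with bounded quadratic mass. -/
theorem bbHD (r : ℕ) (K V : ℝ) {ε : ℝ} (hε : 0 < ε) : ∃ C : ℕ, ∀ {n : ℕ} {ι κ : Type} [DecidableEq κ]
    (J : Finset ι) (T : ι → Term n) (z : ι → ℂ) (H : Finset κ) (U : κ → Term n) (ψ : Finset κ → ℂ),
    (∀ v, (J.filter fun j => v ∈ (T j).S).card ≤ r) → (∀ j ∈ J, ‖z j‖ = 1) →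
    ∑ j ∈ J, (1 / 2 : ℝ) ^ (T j).S.card * ‖1 - z j‖ ^ 2 ≤ V →
    (∀ v, (H.filter fun u => v ∈ (U u).S).card ≤ r) → ∑ u ∈ H, (1 / 2 : ℝ) ^ (U u).S.card ≤ K →
    (∀ I, ‖ψ I‖ ≤ 1) → ∀ W : ℕ, (∀ j ∈ J, (T j).S.card ≤ W) → (∀ u ∈ H, (U u).S.card ≤ W) →
    ∀ {Ω : Type} [Fintype Ω] [Nonempty Ω] (Y : Ω → Cube n) (δ : ℝ), 0 ≤ δ → BiasD (C * W) δ Y →
    ‖(av fun ω => ψ (hx H U (Y ω)) * tj J T z (Y ω)) - av fun x => ψ (hx H U x) * tj J T z x‖ ≤
      ε + δ * (C * ((J.card : ℝ) + H.card + 1)) ^ C := by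
  set E1 : ℝ := Real.exp ((7 ^ (r + 1) - 1) / ((r + 1 : ℕ) : ℝ) * K) with hE1
  set E2 : ℝ := Real.exp ((4 ^ (r + 1) - 1) / ((r + 1 : ℕ) : ℝ) * K) with hE2
  set E3 : ℝ := Real.exp (((r + 1 : ℕ) : ℝ) * 4 ^ 2 * Real.exp (((r + 1 : ℕ) : ℝ) * 4 * Real.pi) *
    (3 * V)) with hE3
  have hE1p : 0 < E1 := Real.exp_pos _
  have hE2p : 0 < E2 := Real.exp_pos _
  have hE3p : 0 < E3 := Real.exp_pos _
  have hε8 : 0 < ε / 8 := by positivity
  obtain ⟨k, hk⟩ : ∃ k : ℕ, 2 * 3 ^ (k + 1) * ((1 / 6) ^ (k + 1) * E1) ≤ ε / 8 := by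
    obtain ⟨k, hk⟩ := exists_pow_lt_of_lt_one (div_pos hε8 (by positivity : 0 < 2 * E1))
      (by norm_num : (1 / 2 : ℝ) < 1)
    refine ⟨k, ?_⟩
    rw [lt_div_iff₀ (by positivity)] at hk
    have h1 : (2 : ℝ) * 3 ^ (k + 1) * ((1 / 6) ^ (k + 1) * E1) = (1 / 2) ^ (k + 1) * (2 * E1) := by
      rw [show (1 / 2 : ℝ) ^ (k + 1) = 3 ^ (k + 1) * (1 / 6) ^ (k + 1) by rw [← mul_pow]; norm_num]
      ring
    rw [h1, pow_succ]
    have h2 : (1 / 2 : ℝ) ^ k * (1 / 2) * (2 * E1) ≤ (1 / 2) ^ k * (2 * E1) := by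
      have : 0 ≤ (1 / 2 : ℝ) ^ k * (2 * E1) := by positivity
      nlinarith
    exact h2.trans hk.le
  set ck : ℝ := 2 * 3 ^ (k + 1) with hck
  have hckp : 0 < ck := by positivity
  set τ : ℝ := (ε / 8) / (ck ^ 2 * E2) with hτ
  have hτp : 0 < τ := by positivity
  obtain ⟨m, hm1, hm2⟩ : ∃ m : ℕ, 2 * E3 * (1 / 16) ^ m ≤ ε / 8 ∧
      2 * E3 * (1 / 16) ^ m ≤ ε / 8 * (4 * τ) := by
    obtain ⟨m, hm⟩ := exists_pow_lt_of_lt_one
      (div_pos (lt_min hε8 (by positivity : 0 < ε / 8 * (4 * τ))) (by positivity : 0 < 2 * E3))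
      (by norm_num : (1 / 16 : ℝ) < 1)
    rw [lt_div_iff₀ (by positivity)] at hm
    refine ⟨m, ?_, ?_⟩
    · have := min_le_left (ε / 8) (ε / 8 * (4 * τ))
      linarith
    · have := min_le_right (ε / 8) (ε / 8 * (4 * τ))
      linarith
  set G : ℕ := 6 * 3 ^ (k + 1) + (k + 1) * (2 * m) + 1 with hG
  refine ⟨G * 18 * (k + 2 + 2 * m), ?_⟩
  intro n ι κ _ J T z H U ψ hread hz hV hread' hK hψ W hWJ hWH Ω _ _ Y δ hδ hY
  have hdeg : k + 1 + 2 * m ≤ G * 18 * (k + 2 + 2 * m) := by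
    calc k + 1 + 2 * m ≤ 1 * (k + 2 + 2 * m) := by omega
      _ ≤ G * 18 * (k + 2 + 2 * m) := Nat.mul_le_mul_right _ (by omega)
  have hY' : BiasD ((k + 1 + 2 * m) * W) δ Y := hY.mono (Nat.mul_le_mul_right _ hdeg)
  set a : ι → ℝ := fun j => (z j).arg with ha
  have haα : ∀ j ∈ J, |a j| ≤ Real.pi := fun j _ => Complex.abs_arg_le_pi _
  have hVa : ∑ j ∈ J, a j ^ 2 * (1 / 2 : ℝ) ^ (T j).S.card ≤ 3 * V := by
    calc ∑ j ∈ J, (z j).arg ^ 2 * (1 / 2 : ℝ) ^ (T j).S.card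
        ≤ ∑ j ∈ J, 3 * ((1 / 2 : ℝ) ^ (T j).S.card * ‖1 - z j‖ ^ 2) := sum_le_sum fun j hj => by
          have := mul_le_mul_of_nonneg_right (bb_arg (hz j hj))
            (by positivity : (0 : ℝ) ≤ (1 / 2) ^ (T j).S.card)
          linarith
      _ = 3 * ∑ j ∈ J, (1 / 2 : ℝ) ^ (T j).S.card * ‖1 - z j‖ ^ 2 := by rw [mul_sum]
      _ ≤ 3 * V := by linarith
  set y : Cube n → ℝ := ctr J T a with hy
  set b : ℝ := 9 * ((J.card : ℝ) + 1) with hb
  have hJ0 : (0 : ℝ) ≤ J.card := Nat.cast_nonneg _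
  have hH0 : (0 : ℝ) ≤ H.card := Nat.cast_nonneg _
  have hb1 : 1 ≤ b := by rw [hb]; linarith
  have hys : SpD W b (fun x => ((y x : ℝ) : ℂ)) := by
    refine (ctr_spD J T a (by norm_num : (0 : ℝ) ≤ 4) (fun j hj => (haα j hj).trans ?_) hWJ).mono
      le_rfl ?_
    · have := Real.pi_lt_d2
      linarith
    · rw [hb]; norm_num
  -- moments of the remainder
  have hmom : ∀ q : ℕ, E (brm q y) ≤ 2 * E3 / 4 ^ (2 * q) := fun q =>
    gt_moment (Nat.succ_pos r) J T (fun v => (hread v).trans (Nat.le_succ r)) a haα hVa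
      (by norm_num : (0 : ℝ) < 4) q
  have hE_rm : E (brm m y) ≤ ε / 8 := by
    refine (hmom m).trans (le_trans (le_of_eq ?_) hm1)
    rw [pow_mul, show (4 : ℝ) ^ 2 = 16 by norm_num, one_div_pow]
    ring
  have hE_rm2 : E (fun x => brm m y x ^ 2) ≤ ε / 8 * (4 * τ) := by
    refine (E_mono fun x => brm_sq m y x).trans ?_
    rw [E_smul]
    refine le_trans (mul_le_mul_of_nonneg_left (hmom (2 * m)) (by positivity)) (le_trans (le_of_eq ?_) hm2)
    rw [show 2 * (2 * m) = 4 * m by ring, pow_mul, show (4 : ℝ) ^ 4 = 16 * 16 by norm_num, mul_pow,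
      one_div_pow]
    field_simp
  have hE_rk : E (fun x => ck * rk H U k x) ≤ ε / 8 := by
    rw [E_smul]
    exact (mul_le_mul_of_nonneg_left (rk_E (Nat.succ_pos r) H U
      (fun v => (hread' v).trans (Nat.le_succ r)) hK k) hckp.le).trans hk
  have hE_rk2 : E (fun x => (τ * ck ^ 2) * rk H U k x ^ 2) ≤ ε / 8 := by
    rw [E_smul]
    refine (mul_le_mul_of_nonneg_left (rk_E2 (Nat.succ_pos r) H U
      (fun v => (hread' v).trans (Nat.le_succ r)) hK k) (by positivity)).trans (le_of_eq ?_)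
    rw [← hE2, hτ]
    field_simp
  -- the bound
  set Q : Cube n → ℝ := fun x => ck * rk H U k x + brm m y x + ck * rk H U k x * brm m y x with hQ
  have hQE : avg Q ≤ ε / 2 := by
    rw [spb_avg_E]
    have h1 : ∀ x, Q x ≤ (ck * rk H U k x + brm m y x) +
        ((τ * ck ^ 2) * rk H U k x ^ 2 + (1 / (4 * τ)) * brm m y x ^ 2) := by
      intro x
      rw [hQ]
      simp only
      have h2 : ck * rk H U k x * brm m y x ≤
          (τ * ck ^ 2) * rk H U k x ^ 2 + (1 / (4 * τ)) * brm m y x ^ 2 := by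
        have h3 : 0 ≤ (1 / (4 * τ)) * (2 * τ * (ck * rk H U k x) - brm m y x) ^ 2 := by positivity
        have h4 : (1 / (4 * τ)) * (2 * τ * (ck * rk H U k x) - brm m y x) ^ 2 =
            (τ * ck ^ 2) * rk H U k x ^ 2 + (1 / (4 * τ)) * brm m y x ^ 2 -
              ck * rk H U k x * brm m y x := by
          field_simp
          ring
        linarith
      linarith
    refine (E_mono h1).trans ?_
    rw [E_add, E_add, E_add, E_smul (1 / (4 * τ))]
    have h5 : 1 / (4 * τ) * E (fun x => brm m y x ^ 2) ≤ ε / 8 := by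
      rw [one_div, inv_mul_le_iff₀ (by positivity)]
      linarith
    linarith
  have hQ0 : ∀ x, 0 ≤ Q x := fun x => by
    rw [hQ]
    have h1 := rk_nonneg H U k x
    have h2 := brm_nonneg m y x
    positivity
  have hQs : SpD ((k + 1 + 2 * m) * W) (ck * ((H.card : ℝ) + 1) ^ (k + 1) + b ^ (2 * m) +
      ck * ((H.card : ℝ) + 1) ^ (k + 1) * b ^ (2 * m)) (fun x => ((Q x : ℝ) : ℂ)) := by
    have h1 := (rk_spD H U k hWH).smul ((ck : ℝ) : ℂ)
    rw [Complex.norm_real, Real.norm_eq_abs, abs_of_pos hckp] at h1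
    have h2 := brm_spD hys m
    have d1 : (k + 1) * W ≤ (k + 1 + 2 * m) * W := Nat.mul_le_mul_right _ (by omega)
    have d2 : 2 * m * W ≤ (k + 1 + 2 * m) * W := Nat.mul_le_mul_right _ (by omega)
    have d3 : (k + 1) * W + 2 * m * W ≤ (k + 1 + 2 * m) * W := by rw [← add_mul]
    refine (((h1.mono d1 le_rfl).add (h2.mono d2 le_rfl)).add ((h1.mul h2).mono d3 le_rfl)).of_eq
      fun x => ?_
    rw [hQ]
    push_cast
    ring
  have hPs : SpD ((k + 1 + 2 * m) * W)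
      ((k + 1) * (2 * ((H.card : ℝ) + 1)) ^ k * (2 * m * b ^ (2 * m)))
      (fun x => psk ψ H U k x * bpm m y x) := by
    refine ((psk_spD ψ hψ H U k hWH).mul (bpm_spD hb1 hys m)).mono ?_ le_rfl
    rw [← add_mul]
    exact Nat.mul_le_mul_right _ (by omega)
  have hclose : ∀ x, ‖ψ (hx H U x) * Complex.exp (Complex.I * (y x : ℂ)) - psk ψ H U k x * bpm m y x‖ ≤
      Q x := by
    intro x
    have h1 := psk_close ψ hψ H U k x
    have h2 := bpm_close m y x
    have h3 : ‖Complex.exp (Complex.I * (y x : ℂ))‖ = 1 := by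
      rw [mul_comm, Complex.norm_exp_ofReal_mul_I]
    have h4 : ‖psk ψ H U k x‖ ≤ 1 + ck * rk H U k x := by
      have : psk ψ H U k x = ψ (hx H U x) - (ψ (hx H U x) - psk ψ H U k x) := by ring
      rw [this]
      exact (norm_sub_le _ _).trans (add_le_add (hψ _) h1)
    have h5 : ψ (hx H U x) * Complex.exp (Complex.I * (y x : ℂ)) - psk ψ H U k x * bpm m y x =
        (ψ (hx H U x) - psk ψ H U k x) * Complex.exp (Complex.I * (y x : ℂ)) +
        psk ψ H U k x * (Complex.exp (Complex.I * (y x : ℂ)) - bpm m y x) := by ring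
    rw [h5]
    refine (norm_add_le _ _).trans ?_
    rw [norm_mul, norm_mul, h3, mul_one]
    have h6 := mul_le_mul h4 h2 (norm_nonneg _) (by
      have := rk_nonneg H U k x
      positivity)
    rw [hQ]
    simp only
    linarith
  -- the phase of the mean
  have hph : ∀ x, ψ (hx H U x) * tj J T z x =
      Complex.exp (Complex.I * (∑ j ∈ J, a j * (1 / 2) ^ (T j).S.card : ℝ)) *
        (ψ (hx H U x) * Complex.exp (Complex.I * (y x : ℂ))) := by
    intro x
    rw [tj_eq J T z hz x]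
    have : Complex.exp (Complex.I * (∑ j ∈ J, (z j).arg * (T j).f x : ℝ)) =
      Complex.exp (Complex.I * (∑ j ∈ J, a j * (1 / 2) ^ (T j).S.card : ℝ)) *
        Complex.exp (Complex.I * (y x : ℂ)) := by
      rw [← Complex.exp_add, ← mul_add, ← Complex.ofReal_add]
      congr 3
      rw [hy]
      unfold ctr
      rw [← sum_add_distrib]
      exact sum_congr rfl fun j _ => by rw [ha]; ring
    rw [this]
    ring
  have hph1 : (av fun ω => ψ (hx H U (Y ω)) * tj J T z (Y ω)) =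
      Complex.exp (Complex.I * (∑ j ∈ J, a j * (1 / 2) ^ (T j).S.card : ℝ)) *
        av fun ω => ψ (hx H U (Y ω)) * Complex.exp (Complex.I * (y (Y ω) : ℂ)) := by
    rw [← spb_av_mul]
    congr 1
    funext ω
    exact hph (Y ω)
  have hph2 : (av fun x => ψ (hx H U x) * tj J T z x) =
      Complex.exp (Complex.I * (∑ j ∈ J, a j * (1 / 2) ^ (T j).S.card : ℝ)) *
        av fun x => ψ (hx H U x) * Complex.exp (Complex.I * (y x : ℂ)) := by
    rw [← spb_av_mul]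
    congr 1
    funext x
    exact hph x
  rw [hph1, hph2, ← mul_sub, norm_mul, mul_comm Complex.I, Complex.norm_exp_ofReal_mul_I, one_mul]
  set F : Cube n → ℂ := fun x => ψ (hx H U x) * Complex.exp (Complex.I * (y x : ℂ)) with hF
  set P : Cube n → ℂ := fun x => psk ψ H U k x * bpm m y x with hP
  have e1 : ‖(av fun ω => F (Y ω)) - av fun ω => P (Y ω)‖ ≤ avg fun ω => Q (Y ω) := by
    rw [← gt_av_sub]
    exact (norm_av_le _).trans (avg_mono fun ω => hclose (Y ω))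
  have e2 : ‖av F - av P‖ ≤ avg Q := by
    rw [← gt_av_sub]
    exact (norm_av_le _).trans (avg_mono fun x => hclose x)
  have e3 := SpD.fool hδ hY' hPs
  have e4 := (abs_le.1 (SpD.fool_real hδ hY' hQs)).2
  have e5 : ‖(av fun ω => F (Y ω)) - av F‖ ≤
      ‖(av fun ω => F (Y ω)) - av fun ω => P (Y ω)‖ + ‖(av fun ω => P (Y ω)) - av P‖ + ‖av F - av P‖ := by
    have h1 : (av fun ω => F (Y ω)) - av F =
      ((av fun ω => F (Y ω)) - av fun ω => P (Y ω)) + ((av fun ω => P (Y ω)) - av P) - (av F - av P) := by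
      ring
    rw [h1]
    refine (norm_sub_le _ _).trans ?_
    exact add_le_add_left (norm_add_le _ _) _
  have e6 := bh_norms k m hJ0 hH0
  calc ‖(av fun ω => F (Y ω)) - av F‖ ≤ _ := e5
    _ ≤ 2 * avg Q + δ * ((2 * 3 ^ (k + 1) * ((H.card : ℝ) + 1) ^ (k + 1) +
      (9 * ((J.card : ℝ) + 1)) ^ (2 * m) +
      2 * 3 ^ (k + 1) * ((H.card : ℝ) + 1) ^ (k + 1) * (9 * ((J.card : ℝ) + 1)) ^ (2 * m)) +
      (k + 1) * (2 * ((H.card : ℝ) + 1)) ^ k * (2 * m * (9 * ((J.card : ℝ) + 1)) ^ (2 * m))) := by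
        rw [mul_add]
        linarith
    _ ≤ ε + δ * _ := add_le_add (by linarith) (mul_le_mul_of_nonneg_left e6 hδ)

end Pool.Agent.MP_ca1109_lc.Xs
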