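import Pool.Agent.MP_ca1109_lc.Xg.BH
import Pool.Agent.MP_ca1109_lc.Xp.FN

/-!
# Walsh expansions of bounded degree, and strings whose short parities have small bias
-/

namespace Pool.Agent.MP_ca1109_lc.Xs

open Finset Pool.Agent.MP_ca1109_lc.Mpg Pool.Agent.MP_ca1109_lc.Agp
open Pool.Agent.MP_ca1109_lc.Xp Pool.Agent.MP_ca1109_lc.Xg
open Pool.Agent.MP_ca1109_lc.Dnf (Cube ch one E Term)

variable {n : ℕ}

/-- The nonempty parities of at most `D` bits of the string `Y ω` have average at most `δ`. -/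
def BiasD {Ω : Type*} [Fintype Ω] (D : ℕ) (δ : ℝ) (Y : Ω → Cube n) : Prop :=
  ∀ S : Finset (Fin n), S ≠ ∅ → S.card ≤ D → |avg fun ω => ch S (Y ω)| ≤ δ

theorem BiasD.mono {Ω : Type*} [Fintype Ω] {D D' : ℕ} {δ : ℝ} {Y : Ω → Cube n} (h : BiasD D' δ Y)
    (hD : D ≤ D') : BiasD D δ Y := fun S hS hc => h S hS (hc.trans hD)

/-- `f` is a combination of parities of at most `D` bits, of total size at most `B`. -/
def SpD (D : ℕ) (B : ℝ) (f : Cube n → ℂ) : Prop :=
  ∃ (ι : Type) (_ : Fintype ι) (a : ι → ℂ) (S : ι → Finset (Fin n)),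
    (∀ i, (S i).card ≤ D) ∧ ∑ i, ‖a i‖ ≤ B ∧ ∀ x, f x = ∑ i, a i * ((ch (S i) x : ℝ) : ℂ)

theorem SpD.mono {D D' : ℕ} {B B' : ℝ} {f : Cube n → ℂ} (h : SpD D B f) (hD : D ≤ D')
    (hB : B ≤ B') : SpD D' B' f := by
  obtain ⟨ι, i1, a, S, h1, h2, h3⟩ := h
  exact ⟨ι, i1, a, S, fun i => (h1 i).trans hD, h2.trans hB, h3⟩

theorem SpD.of_eq {D : ℕ} {B : ℝ} {f g : Cube n → ℂ} (h : SpD D B f) (e : ∀ x, g x = f x) :
    SpD D B g := by
  have : g = f := funext e
  rwa [this]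

theorem SpD.nonneg {D : ℕ} {B : ℝ} {f : Cube n → ℂ} (h : SpD D B f) : 0 ≤ B := by
  obtain ⟨ι, i1, a, S, h1, h2, h3⟩ := h
  exact (sum_nonneg fun i _ => norm_nonneg _).trans h2

theorem SpD.const (D : ℕ) (c : ℂ) : SpD D ‖c‖ (fun _ : Cube n => c) := by
  refine ⟨Unit, inferInstance, fun _ => c, fun _ => ∅, fun _ => by simp, by simp, fun x => ?_⟩
  simp [Dnf.ch_empty]

theorem SpD.smul {D : ℕ} {B : ℝ} {f : Cube n → ℂ} (c : ℂ) (h : SpD D B f) :
    SpD D (‖c‖ * B) (fun x => c * f x) := by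
  obtain ⟨ι, i1, a, S, h1, h2, h3⟩ := h
  refine ⟨ι, i1, fun i => c * a i, S, h1, ?_, fun x => ?_⟩
  · simp only [norm_mul, ← mul_sum]
    exact mul_le_mul_of_nonneg_left h2 (norm_nonneg _)
  · show c * f x = _
    rw [h3, mul_sum]
    exact sum_congr rfl fun i _ => by ring

theorem SpD.add {D : ℕ} {B B' : ℝ} {f g : Cube n → ℂ} (h : SpD D B f) (h' : SpD D B' g) :
    SpD D (B + B') (fun x => f x + g x) := by
  obtain ⟨ι, i1, a, S, h1, h2, h3⟩ := h
  obtain ⟨ι', i1', a', S', h1', h2', h3'⟩ := h'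
  refine ⟨ι ⊕ ι', inferInstance, Sum.elim a a', Sum.elim S S', ?_, ?_, fun x => ?_⟩
  · rintro (i | i)
    · exact h1 i
    · exact h1' i
  · rw [Fintype.sum_sum_type]
    exact add_le_add h2 h2'
  · show f x + g x = _
    rw [Fintype.sum_sum_type, h3, h3']
    rfl

theorem SpD.sum {α : Type*} (s : Finset α) {D : ℕ} (B : α → ℝ) (f : α → Cube n → ℂ)
    (h : ∀ i ∈ s, SpD D (B i) (f i)) : SpD D (∑ i ∈ s, B i) (fun x => ∑ i ∈ s, f i x) := by
  classical
  induction s using Finset.induction_on with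
  | empty =>
    have h1 := (SpD.const (n := n) D 0)
    simpa using h1
  | insert a s ha ih =>
    have h1 := (h a (mem_insert_self _ _)).add (ih fun i hi => h i (mem_insert_of_mem hi))
    rw [sum_insert ha]
    exact h1.of_eq fun x => sum_insert ha

theorem SpD.mul {D D' : ℕ} {B B' : ℝ} {f g : Cube n → ℂ} (h : SpD D B f) (h' : SpD D' B' g) :
    SpD (D + D') (B * B') (fun x => f x * g x) := by
  obtain ⟨ι, i1, a, S, h1, h2, h3⟩ := h
  obtain ⟨ι', i1', a', S', h1', h2', h3'⟩ := h'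
  refine ⟨ι × ι', inferInstance, fun i => a i.1 * a' i.2, fun i => symmDiff (S i.1) (S' i.2),
    fun i => ?_, ?_, fun x => ?_⟩
  · refine (card_le_card (?_ : symmDiff (S i.1) (S' i.2) ⊆ S i.1 ∪ S' i.2)).trans
      ((card_union_le _ _).trans (add_le_add (h1 _) (h1' _)))
    intro j hj
    rw [mem_symmDiff] at hj
    rw [mem_union]
    tauto
  · rw [Fintype.sum_prod_type]
    simp only [norm_mul, ← mul_sum, ← sum_mul]
    exact mul_le_mul h2 h2' (sum_nonneg fun _ _ => norm_nonneg _)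
      ((sum_nonneg fun _ _ => norm_nonneg _).trans h2)
  · show f x * g x = _
    rw [h3, h3', Fintype.sum_prod_type, sum_mul_sum]
    refine sum_congr rfl fun i _ => sum_congr rfl fun j _ => ?_
    rw [← Dnf.ch_mul]
    push_cast
    ring

theorem SpD.pow {D : ℕ} {B : ℝ} {f : Cube n → ℂ} (h : SpD D B f) (k : ℕ) :
    SpD (k * D) (B ^ k) (fun x => f x ^ k) := by
  induction k with
  | zero =>
    have h1 := SpD.const (n := n) 0 1
    rw [norm_one] at h1
    simpa using h1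
  | succ k ih =>
    have h1 := ih.mul h
    rw [← Nat.succ_mul] at h1
    refine (h1.mono le_rfl (le_of_eq (pow_succ _ _).symm)).of_eq fun x => pow_succ _ _

theorem SpD.prod {α : Type*} (s : Finset α) {D : ℕ} (f : α → Cube n → ℂ)
    (h : ∀ i ∈ s, SpD D 1 (f i)) : SpD (s.card * D) 1 (fun x => ∏ i ∈ s, f i x) := by
  classical
  induction s using Finset.induction_on with
  | empty =>
    have h1 := (SpD.const (n := n) 0 1)
    rw [norm_one] at h1
    simpa using h1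
  | insert a s ha ih =>
    have h1 := (h a (mem_insert_self _ _)).mul (ih fun i hi => h i (mem_insert_of_mem hi))
    rw [card_insert_of_notMem ha]
    refine (h1.mono (le_of_eq (by ring)) (by norm_num)).of_eq fun x => prod_insert ha

theorem SpD.term (t : Term n) : SpD t.S.card 1 (fun x => ((t.f x : ℝ) : ℂ)) := by
  classical
  refine ⟨{S // S ∈ t.S.powerset}, inferInstance,
    fun S => (((1 / 2 : ℝ) ^ t.S.card * ch S.1 t.a : ℝ) : ℂ), fun S => S.1,
    fun S => card_le_card (mem_powerset.1 S.2), ?_, fun x => ?_⟩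
  · rw [Finset.sum_coe_sort t.S.powerset
      fun S => ‖(((1 / 2 : ℝ) ^ t.S.card * ch S t.a : ℝ) : ℂ)‖]
    have h2 : ∀ S ∈ t.S.powerset, ‖(((1 / 2 : ℝ) ^ t.S.card * ch S t.a : ℝ) : ℂ)‖ =
        (1 / 2 : ℝ) ^ t.S.card := by
      intro S _
      rw [Complex.norm_real, Real.norm_eq_abs, abs_mul, Dnf.ch_abs, mul_one,
        abs_of_nonneg (by positivity)]
    rw [sum_congr rfl h2, sum_const, card_powerset, nsmul_eq_mul]
    push_cast
    rw [← mul_pow]
    norm_num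
  · show ((t.f x : ℝ) : ℂ) = _
    rw [Finset.sum_coe_sort t.S.powerset
      fun S => (((1 / 2 : ℝ) ^ t.S.card * ch S t.a : ℝ) : ℂ) * ((ch S x : ℝ) : ℂ),
      Dnf.term_expand]
    push_cast
    rfl

/-- The short parities decide. -/
theorem SpD.fool {Ω : Type*} [Fintype Ω] [Nonempty Ω] {Y : Ω → Cube n} {D : ℕ} {δ B : ℝ}
    (hδ : 0 ≤ δ) (hY : BiasD D δ Y) {f : Cube n → ℂ} (hf : SpD D B f) :
    ‖av (fun ω => f (Y ω)) - av f‖ ≤ δ * B := by
  obtain ⟨ι, i1, a, S, h1, h2, h3⟩ := hf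
  have e1 : av (fun ω => f (Y ω)) = ∑ i, a i * ((avg fun ω => ch (S i) (Y ω) : ℝ) : ℂ) := by
    simp only [h3]
    rw [spb_av_sum]
    refine sum_congr rfl fun i _ => ?_
    rw [spb_av_mul, spb_avg_ofReal]
  have e2 : av f = ∑ i, a i * ((avg fun x : Cube n => ch (S i) x : ℝ) : ℂ) := by
    have : f = fun x => ∑ i, a i * ((ch (S i) x : ℝ) : ℂ) := funext h3
    rw [this, spb_av_sum]
    refine sum_congr rfl fun i _ => ?_
    rw [spb_av_mul, spb_avg_ofReal]
  rw [e1, e2, ← sum_sub_distrib]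
  have h4 : ∀ i, ‖a i * ((avg fun ω => ch (S i) (Y ω) : ℝ) : ℂ) -
      a i * ((avg fun x : Cube n => ch (S i) x : ℝ) : ℂ)‖ ≤ δ * ‖a i‖ := by
    intro i
    rw [← mul_sub, norm_mul, mul_comm δ]
    refine mul_le_mul_of_nonneg_left ?_ (norm_nonneg _)
    rw [← Complex.ofReal_sub, Complex.norm_real, Real.norm_eq_abs]
    by_cases hS : S i = ∅
    · rw [hS]
      simp only [Dnf.ch_empty, avg_const, sub_self, abs_zero]
      exact hδ
    · have h5 : avg (fun x : Cube n => ch (S i) x) = 0 := by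
        rw [Xp.avg_E, Dnf.E_ch, if_neg hS]
      rw [h5, sub_zero]
      exact hY (S i) hS (h1 i)
  refine (norm_sum_le _ _).trans ((sum_le_sum fun i _ => h4 i).trans ?_)
  rw [← mul_sum]
  exact mul_le_mul_of_nonneg_left h2 hδ

theorem SpD.fool_real {Ω : Type*} [Fintype Ω] [Nonempty Ω] {Y : Ω → Cube n} {D : ℕ} {δ B : ℝ}
    (hδ : 0 ≤ δ) (hY : BiasD D δ Y) {f : Cube n → ℝ} (hf : SpD D B fun x => ((f x : ℝ) : ℂ)) :
    |(avg fun ω => f (Y ω)) - avg f| ≤ δ * B := by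
  have h := SpD.fool hδ hY hf
  rw [spb_avg_ofReal (fun ω => f (Y ω)), spb_avg_ofReal f, ← Complex.ofReal_sub, Complex.norm_real,
    Real.norm_eq_abs] at h
  exact h

/-! ## The pieces of the expansion -/

theorem ctr_spD {ι : Type} (J : Finset ι) (T : ι → Term n) (a : ι → ℝ) {A : ℝ} {W : ℕ} (hA : 0 ≤ A)
    (ha : ∀ j ∈ J, |a j| ≤ A) (hW : ∀ j ∈ J, (T j).S.card ≤ W) :
    SpD W ((2 * A + 1) * (J.card + 1)) (fun x => ((ctr J T a x : ℝ) : ℂ)) := by
  have h1 : ∀ j ∈ J, SpD W (2 * A)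
      (fun x => ((a j * ((T j).f x - (1 / 2) ^ (T j).S.card) : ℝ) : ℂ)) := by
    intro j hj
    have h2 : SpD W 1 (fun x => (((T j).f x : ℝ) : ℂ)) := (SpD.term (T j)).mono (hW j hj) le_rfl
    have h3 : SpD W 1 (fun _ : Cube n => -(((1 / 2 : ℝ) ^ (T j).S.card : ℝ) : ℂ)) := by
      refine (SpD.const W _).mono le_rfl ?_
      rw [norm_neg, Complex.norm_real, Real.norm_eq_abs, abs_of_nonneg (by positivity)]
      exact pow_le_one₀ (by norm_num) (by norm_num)
    have h4 := (h2.add h3).smul ((a j : ℝ) : ℂ)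
    refine (h4.mono le_rfl ?_).of_eq fun x => by push_cast; ring
    rw [Complex.norm_real, Real.norm_eq_abs]
    have := ha j hj
    linarith
  refine ((SpD.sum J (fun _ => 2 * A) _ h1).mono le_rfl ?_).of_eq fun x => by
    unfold ctr
    push_cast
    rfl
  rw [sum_const, nsmul_eq_mul]
  have : (0 : ℝ) ≤ J.card := Nat.cast_nonneg _
  nlinarith

theorem brm_spD {y : Cube n → ℝ} {b : ℝ} {W : ℕ} (hys : SpD W b fun x => ((y x : ℝ) : ℂ))
    (m : ℕ) : SpD (2 * m * W) (b ^ (2 * m)) (fun x => ((brm m y x : ℝ) : ℂ)) := by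
  have hb : 0 ≤ b := hys.nonneg
  have h1 := (hys.pow (2 * m)).smul ((1 / (2 * m).factorial : ℝ) : ℂ)
  refine (h1.mono le_rfl ?_).of_eq fun x => by unfold brm; push_cast; ring
  rw [Complex.norm_real, Real.norm_eq_abs, abs_of_nonneg (by positivity)]
  have h2 : (1 : ℝ) / (2 * m).factorial ≤ 1 := by
    rw [div_le_one (by positivity)]
    exact_mod_cast Nat.one_le_iff_ne_zero.2 (Nat.factorial_ne_zero _)
  calc (1 : ℝ) / (2 * m).factorial * b ^ (2 * m) ≤ 1 * b ^ (2 * m) :=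
        mul_le_mul_of_nonneg_right h2 (by positivity)
    _ = _ := one_mul _

theorem bpm_spD {y : Cube n → ℝ} {b : ℝ} {W : ℕ} (hb1 : 1 ≤ b)
    (hys : SpD W b fun x => ((y x : ℝ) : ℂ)) (m : ℕ) :
    SpD (2 * m * W) (2 * m * b ^ (2 * m)) (bpm m y) := by
  have h1 : ∀ k ∈ range (2 * m), SpD (2 * m * W) (b ^ (2 * m))
      (fun x => (Complex.I * (y x : ℂ)) ^ k / (k.factorial : ℂ)) := by
    intro k hk
    have h2 := ((hys.smul Complex.I).pow k).smul ((1 / k.factorial : ℝ) : ℂ)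
    refine (h2.mono (Nat.mul_le_mul_right _ (mem_range.1 hk).le) ?_).of_eq fun x => by
      push_cast; ring
    rw [Complex.norm_real, Real.norm_eq_abs, abs_of_nonneg (by positivity), Complex.norm_I, one_mul]
    have h3 : (1 : ℝ) / k.factorial ≤ 1 := by
      rw [div_le_one (by positivity)]
      exact_mod_cast Nat.one_le_iff_ne_zero.2 (Nat.factorial_ne_zero _)
    calc (1 : ℝ) / k.factorial * b ^ k ≤ 1 * b ^ (2 * m) :=
          mul_le_mul h3 (pow_le_pow_right₀ hb1 (mem_range.1 hk).le) (by positivity) zero_le_one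
      _ = _ := one_mul _
  refine (SpD.sum _ (fun _ => b ^ (2 * m)) _ h1).mono le_rfl (le_of_eq ?_)
  rw [sum_const, card_range, nsmul_eq_mul]
  push_cast
  ring

theorem prod_spD {κ : Type} {W : ℕ} (U : κ → Term n) (J : Finset κ)
    (hW : ∀ u ∈ J, (U u).S.card ≤ W) :
    SpD (J.card * W) 1 (fun x => ((∏ u ∈ J, (U u).f x : ℝ) : ℂ)) :=
  (SpD.prod J (fun u x => (((U u).f x : ℝ) : ℂ)) fun u hu =>
    (SpD.term (U u)).mono (hW u hu) le_rfl).of_eq fun x => by push_cast; rfl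

theorem psk_spD {κ : Type} [DecidableEq κ] {W : ℕ} (ψ : Finset κ → ℂ) (h : ∀ I, ‖ψ I‖ ≤ 1)
    (H : Finset κ) (U : κ → Term n) (k : ℕ) (hW : ∀ u ∈ H, (U u).S.card ≤ W) :
    SpD (k * W) ((k + 1) * (2 * ((H.card : ℝ) + 1)) ^ k) (psk ψ H U k) := by
  refine (SpD.sum _ (fun J => (2 : ℝ) ^ J.card) _ fun J hJ => ?_).mono le_rfl (bh_sum_card H k)
  rw [mem_filter, mem_powerset] at hJ
  refine ((prod_spD U J fun u hu => hW u (hJ.1 hu)).smul (mob ψ J)).mono
    (Nat.mul_le_mul_right _ hJ.2) ?_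
  rw [mul_one]
  exact mob_norm ψ h J

theorem rk_spD {κ : Type} [DecidableEq κ] {W : ℕ} (H : Finset κ) (U : κ → Term n) (k : ℕ)
    (hW : ∀ u ∈ H, (U u).S.card ≤ W) :
    SpD ((k + 1) * W) (((H.card : ℝ) + 1) ^ (k + 1)) (fun x => ((rk H U k x : ℝ) : ℂ)) := by
  refine ((SpD.sum (powersetCard (k + 1) H) (fun _ => (1 : ℝ))
    (fun J x => ((∏ u ∈ J, (U u).f x : ℝ) : ℂ)) fun J hJ => ?_).mono le_rfl
    ?_).of_eq fun x => by unfold rk; push_cast; rfl
  · rw [mem_powersetCard] at hJ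
    have h1 := prod_spD U J fun u hu => hW u (hJ.1 hu)
    rwa [hJ.2] at h1
  · rw [sum_const, card_powersetCard, nsmul_eq_mul, mul_one]
    have h2 : H.card.choose (k + 1) ≤ (H.card + 1) ^ (k + 1) :=
      (Nat.choose_le_pow H.card (k + 1)).trans (Nat.pow_le_pow_left (Nat.le_succ _) _)
    exact_mod_cast h2

end Pool.Agent.MP_ca1109_lc.Xs
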