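import Pool.Agent.MP_ca1109_lc.Xs.PR
import Pool.Agent.MP_ca1109_lc.Xs.DG

/-!
# Probability distributions with real weights, and small lengths
-/

namespace Pool.Agent.MP_ca1109_lc.Xs

open Finset Pool.Agent.MP_ca1109_lc.Mpg Pool.Agent.MP_ca1109_lc.Agp
open Pool.Agent.MP_ca1109_lc.Dnf (Cube ch)
open Pool.Agent.MP_ca1109_lc.Xp (Bias)

variable {n : ℕ}

/-- A probability distribution is approximated by uniform distributions on finite lists. -/
theorem rd_approx (p : Cube n → ℝ) (h0 : ∀ x, 0 ≤ p x) (h1 : ∑ x, p x = 1) {η : ℝ} (hη : 0 < η) :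
    ∃ (Ω : Type) (_ : Fintype Ω) (_ : Nonempty Ω) (Y : Ω → Cube n), ∀ φ : Cube n → ℝ,
      (∀ x, |φ x| ≤ 1) → |(avg fun ω => φ (Y ω)) - ∑ x, p x * φ x| ≤ η := by
  classical
  obtain ⟨A, hA⟩ : ∃ A : ℝ, A = 2 ^ n := ⟨_, rfl⟩
  have hA0 : 0 < A := by rw [hA]; positivity
  have hcardA : ((univ : Finset (Cube n)).card : ℝ) = A := by
    rw [hA, card_univ]
    simp
  obtain ⟨N, hN⟩ := exists_nat_gt (A + 2 * A / η)
  have hN0 : A < N := by
    have : 0 < 2 * A / η := by positivity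
    linarith
  have hNA : 2 * A ≤ η * (N - A) := by
    have h2 : 2 * A / η ≤ N - A := by linarith
    rw [div_le_iff₀ hη] at h2
    linarith
  obtain ⟨c, hc⟩ : ∃ c : Cube n → ℕ, c = fun x => ⌊(N : ℝ) * p x⌋₊ := ⟨_, rfl⟩
  have hN00 : (0 : ℝ) ≤ N := Nat.cast_nonneg N
  have hc1 : ∀ x, (c x : ℝ) ≤ N * p x := fun x => by
    rw [hc]
    exact Nat.floor_le (mul_nonneg hN00 (h0 x))
  have hc2 : ∀ x, (N : ℝ) * p x - 1 ≤ c x := fun x => by
    rw [hc]
    exact (Nat.sub_one_lt_floor _).le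
  obtain ⟨M, hM⟩ : ∃ M : ℝ, M = ∑ x, (c x : ℝ) := ⟨_, rfl⟩
  have hM1 : M ≤ N := by
    rw [hM]
    calc ∑ x, (c x : ℝ) ≤ ∑ x, (N : ℝ) * p x := sum_le_sum fun x _ => hc1 x
      _ = N := by rw [← mul_sum, h1, mul_one]
  have hM2 : (N : ℝ) - A ≤ M := by
    rw [hM]
    calc (N : ℝ) - A = ∑ x, ((N : ℝ) * p x - 1) := by
          rw [sum_sub_distrib, ← mul_sum, h1, mul_one, sum_const, nsmul_eq_mul, mul_one, hcardA]
      _ ≤ _ := sum_le_sum fun x _ => hc2 x
  have hM0 : 0 < M := by linarith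
  have hcard : (Fintype.card ((x : Cube n) × Fin (c x)) : ℝ) = M := by
    rw [Fintype.card_sigma, hM]
    push_cast
    simp
  have hne : Nonempty ((x : Cube n) × Fin (c x)) := by
    rw [← Fintype.card_pos_iff]
    have h2 : (0 : ℝ) < Fintype.card ((x : Cube n) × Fin (c x)) := by rw [hcard]; exact hM0
    exact_mod_cast h2
  refine ⟨(x : Cube n) × Fin (c x), inferInstance, hne, fun ω => ω.1, fun φ hφ => ?_⟩
  have h2 : (avg fun ω : (x : Cube n) × Fin (c x) => φ ω.1) = (∑ x, (c x : ℝ) * φ x) / M := by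
    unfold avg
    rw [hcard, Fintype.sum_sigma]
    congr 1
    refine sum_congr rfl fun x _ => ?_
    simp
  have h3 : (∑ x, (c x : ℝ) * φ x) / M - ∑ x, p x * φ x =
      (∑ x, ((c x : ℝ) - M * p x) * φ x) / M := by
    rw [eq_div_iff hM0.ne', sub_mul, div_mul_cancel₀ _ hM0.ne', sum_mul, ← sum_sub_distrib]
    exact sum_congr rfl fun x _ => by ring
  rw [h2, h3, abs_div, abs_of_pos hM0, div_le_iff₀ hM0]
  have h4 : ∀ x, |((c x : ℝ) - M * p x) * φ x| ≤ 1 + A * p x := by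
    intro x
    rw [abs_mul]
    have h5 : |(c x : ℝ) - M * p x| ≤ 1 + A * p x := by
      rw [abs_le]
      have h6 := hc1 x
      have h7 := hc2 x
      have h8 : M * p x ≤ N * p x := mul_le_mul_of_nonneg_right hM1 (h0 x)
      have h9 : (N - A) * p x ≤ M * p x := mul_le_mul_of_nonneg_right hM2 (h0 x)
      have h10 : 0 ≤ A * p x := mul_nonneg hA0.le (h0 x)
      constructor <;> nlinarith
    calc |(c x : ℝ) - M * p x| * |φ x| ≤ (1 + A * p x) * 1 :=
          mul_le_mul h5 (hφ x) (abs_nonneg _) ((abs_nonneg _).trans h5)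
      _ = _ := mul_one _
  calc |∑ x, ((c x : ℝ) - M * p x) * φ x| ≤ ∑ x, |((c x : ℝ) - M * p x) * φ x| :=
        abs_sum_le_sum_abs _ _
    _ ≤ ∑ x, (1 + A * p x) := sum_le_sum fun x _ => h4 x
    _ = 2 * A := by
        rw [sum_add_distrib, ← mul_sum, h1, mul_one, sum_const, nsmul_eq_mul, mul_one, hcardA]
        ring
    _ ≤ η * (N - A) := hNA
    _ ≤ η * M := mul_le_mul_of_nonneg_left hM2 hη.le

theorem rd_abs {φ : Cube n → ℝ} (h0 : ∀ x, 0 ≤ φ x) (h1 : ∀ x, φ x ≤ 1) (x : Cube n) :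
    |φ x| ≤ 1 := by
  rw [abs_of_nonneg (h0 x)]
  exact h1 x

/-- The trivial bound, for small `n`. -/
theorem rd_small {Ω : Type} [Fintype Ω] [Nonempty Ω] {Y : Ω → Cube n} {δ : ℝ} (hδ : 0 ≤ δ)
    (hY : Bias δ Y) (f : Cube n → Bool) :
    |(avg fun ω => ind (f (Y ω))) - avg fun x : Cube n => ind (f x)| ≤ δ * 2 ^ n := by
  classical
  have h1 : Xp.Sp (2 ^ n) (fun x : Cube n => ((ind (f x) : ℝ) : ℂ)) := by
    refine (Xp.Sp_real fun x => ind (f x)).mono ?_
    unfold Dnf.L1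
    have h2 : ∀ S : Finset (Fin n), |Dnf.fc (fun x => ind (f x)) S| ≤ 1 := by
      intro S
      unfold Dnf.fc Dnf.E
      rw [abs_div, abs_of_pos (by positivity : (0 : ℝ) < 2 ^ n), div_le_one (by positivity)]
      refine (abs_sum_le_sum_abs _ _).trans ?_
      calc ∑ x : Cube n, |ind (f x) * ch S x| ≤ ∑ x : Cube n, (1 : ℝ) := sum_le_sum fun x _ => by
            rw [abs_mul, Dnf.ch_abs, mul_one, abs_of_nonneg (ind_nonneg _)]
            exact ind_le_one _
        _ = 2 ^ n := by simp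
    calc ∑ S, |Dnf.fc (fun x => ind (f x)) S| ≤ ∑ S : Finset (Fin n), (1 : ℝ) :=
          sum_le_sum fun S _ => h2 S
      _ = 2 ^ n := by simp
  exact Xp.fool_real hδ hY h1

/-- From strings to probability distributions. -/
theorem rd_transfer {D : ℕ} {δ η : ℝ} {p : Cube n → ℝ} (hp : SmallBias D δ p) (hη : 0 < η) :
    ∃ (Ω : Type) (_ : Fintype Ω) (_ : Nonempty Ω) (Y : Ω → Cube n), BiasD D (δ + η) Y ∧
      ∀ f : Cube n → Bool,
        |(avg fun ω => ind (f (Y ω))) - ∑ x, (if f x = true then p x else 0)| ≤ η := by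
  classical
  obtain ⟨h0, h1, hb⟩ := hp
  obtain ⟨Ω, i1, i2, Y, hY⟩ := rd_approx p h0 h1 hη
  refine ⟨Ω, i1, i2, Y, fun S hS hD => ?_, fun f => ?_⟩
  · obtain ⟨s, hs, hch⟩ := par_ch S
    have hss : s * s = 1 := by rcases hs with rfl | rfl <;> norm_num
    have habs : |s| = 1 := by rcases hs with rfl | rfl <;> norm_num
    have h2 : ∀ x : Cube n, ch S x = -s * (if par S x = true then -1 else 1) := by
      intro x
      cases hp : par S x
      · have h3 := (hch x).2 hp
        have h4 : ch S x = s * (s * ch S x) := by rw [← mul_assoc, hss, one_mul]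
        rw [h4, h3]
        simp
      · have h3 := (hch x).1 hp
        have h4 : ch S x = s * (s * ch S x) := by rw [← mul_assoc, hss, one_mul]
        rw [h4, h3]
        simp
    have h3 := hY (ch S) fun x => (Dnf.ch_abs S x).le
    have h4 : |∑ x, p x * ch S x| ≤ δ := by
      have h5 : ∑ x, p x * ch S x = -s * ∑ x, p x * (if par S x = true then -1 else 1) := by
        rw [mul_sum]
        refine sum_congr rfl fun x _ => ?_
        rw [h2]
        ring
      rw [h5, abs_mul, abs_neg, habs, one_mul]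
      exact hb S (nonempty_iff_ne_empty.2 hS) hD
    have h5 : (avg fun ω => ch S (Y ω)) =
        ((avg fun ω => ch S (Y ω)) - ∑ x, p x * ch S x) + ∑ x, p x * ch S x := by ring
    rw [h5]
    refine (abs_add_le _ _).trans ?_
    linarith
  · have h3 := hY (fun x => ind (f x)) (rd_abs (fun x => ind_nonneg _) fun x => ind_le_one _)
    have h4 : (∑ x, if f x = true then p x else 0) = ∑ x, p x * ind (f x) := by
      refine sum_congr rfl fun x _ => ?_
      unfold ind
      split_ifs <;> simp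
    rw [h4]
    exact h3

/-- If all strings are fooled then all probability distributions are fooled. -/
theorem rd_final {𝒯 : ∀ n : ℕ, ((Fin n → Bool) → Bool) → Prop} {D : ℕ → ℕ} {ε : ℝ} (hε : 0 < ε)
    {C : ℕ} (hD : ∀ n, 0 < n → 0 < D n)
    (HC : ∀ (n : ℕ) (Ω : Type) [Fintype Ω] [Nonempty Ω] (Y : Ω → Cube n) (δ : ℝ), 0 ≤ δ →
      δ * ((n : ℝ) + 1) ^ C ≤ 1 → BiasD (D n) δ Y → ∀ f : Cube n → Bool, 𝒯 n f →
        |(avg fun ω => ind (f (Y ω))) - avg fun x : Cube n => ind (f x)| ≤ ε / 2)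
    (n : ℕ) (p : Cube n → ℝ) (δ : ℝ) (hp : SmallBias (D n) δ p)
    (hδn : δ * ((n : ℝ) + 1) ^ (C + 1) ≤ 1) (f : Cube n → Bool) (hf : 𝒯 n f) :
    |(∑ x, if f x = true then p x else 0) - prob f| ≤ ε := by
  classical
  have hn0 : (0 : ℝ) ≤ n := Nat.cast_nonneg n
  obtain ⟨q, hq⟩ : ∃ q : ℝ, q = ((n : ℝ) + 1) ^ C := ⟨_, rfl⟩
  have hq1 : 1 ≤ q := by
    rw [hq]
    exact one_le_pow₀ (by linarith)
  rcases Nat.eq_zero_or_pos n with rfl | hpos
  · -- one point
    have hx : ∀ x : Cube 0, f x = f Fin.elim0 := fun x => congrArg f (funext fun i => i.elim0)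
    have h2 : (∑ x, if f x = true then p x else 0) = ind (f Fin.elim0) := by
      have h3 : ∀ x : Cube 0, (if f x = true then p x else 0) = p x * ind (f Fin.elim0) := by
        intro x
        rw [hx]
        unfold ind
        split_ifs <;> simp
      simp only [h3]
      rw [← sum_mul, hp.2.1, one_mul]
    have h3 : prob f = ind (f Fin.elim0) := by
      rw [prob_eq_avg]
      simp only [hx]
      exact avg_const _
    rw [h2, h3, sub_self, abs_zero]
    exact hε.le
  have hn1 : (1 : ℝ) ≤ n := by exact_mod_cast hpos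
  have hδ : 0 ≤ δ := by
    have h2 : ({⟨0, hpos⟩} : Finset (Fin n)).Nonempty := ⟨_, mem_singleton_self _⟩
    exact (abs_nonneg _).trans (hp.2.2 _ h2 (by rw [card_singleton]; exact hD n hpos))
  -- the approximation
  obtain ⟨η, hη⟩ : ∃ η : ℝ, η = min (1 / (2 * q)) (ε / 2) := ⟨_, rfl⟩
  have hη0 : 0 < η := by
    rw [hη]
    exact lt_min (by positivity) (by positivity)
  have hη1 : η * q ≤ 1 / 2 := by
    have h2 : η ≤ 1 / (2 * q) := by rw [hη]; exact min_le_left _ _
    calc η * q ≤ 1 / (2 * q) * q := mul_le_mul_of_nonneg_right h2 (by linarith)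
      _ = 1 / 2 := by field_simp
  have hη2 : η ≤ ε / 2 := by rw [hη]; exact min_le_right _ _
  have hδq : δ * q ≤ 1 / 2 := by
    have h2 : δ * q * (n + 1) ≤ 1 := by
      rw [hq]
      calc δ * ((n : ℝ) + 1) ^ C * (n + 1) = δ * ((n : ℝ) + 1) ^ (C + 1) := by ring
        _ ≤ 1 := hδn
    have h3 : 0 ≤ δ * q := by positivity
    nlinarith
  obtain ⟨Ω, i1, i2, Y, hbias, hY⟩ := rd_transfer hp hη0
  have h2 := HC n Ω Y (δ + η) (by linarith) (by rw [← hq, add_mul]; linarith) hbias f hf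
  have h3 := hY f
  rw [prob_eq_avg]
  have h5 : (∑ x, if f x = true then p x else 0) - (avg fun x : Cube n => ind (f x)) =
      -((avg fun ω => ind (f (Y ω))) - ∑ x, (if f x = true then p x else 0)) +
        ((avg fun ω => ind (f (Y ω))) - avg fun x : Cube n => ind (f x)) := by ring
  rw [h5]
  refine (abs_add_le _ _).trans ?_
  rw [abs_neg]
  linarith

/-- All parities. -/
theorem biasD_all {Ω : Type} [Fintype Ω] {Y : Ω → Cube n} {D : ℕ} {δ : ℝ} (h : BiasD D δ Y)
    (hD : n ≤ D) : Bias δ Y := fun S hS =>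
  h S hS ((card_le_univ S).trans (by rw [Fintype.card_fin]; exact hD))

end Pool.Agent.MP_ca1109_lc.Xs
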