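import Pool.Agent.MP_ca1109_lc.Xs.AV
import Pool.Agent.MP_ca1109_lc.Xs.RD
import Pool.Agent.MP_ca1109_lc.Xs.LN
import Pool.Agent.MP_ca1109_lc.Xr.IN
import Pool.Agent.MP_ca1109_lc.Pb.AT

/-!
# Every string of polynomially small bias fools the class
-/

namespace Pool.Agent.MP_ca1109_lc.Xs

open Finset Pool.Agent.H66 Pool.Agent.MP_ca1109_lc.Mpg Pool.Agent.MP_ca1109_lc.Agp
open Pool.Agent.MP_ca1109_lc.Dnf (Cube ch one Term)
open Pool.Agent.MP_ca1109_lc.Xl (Tr)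
open Pool.Agent.MP_ca1109_lc.Xp (Bias)
open Pool.Agent.MP_ca1109_lc.Xa (FP)
open Pool.Agent.MP_ca1109_lc.Pb (FoolA fool_bias)
open Pool.Agent.MP_ca1109_lc.Xu (litSum)
open Pool.Agent.MP_ca1109_lc.Xd (fx rS rc rS_mem litSum_fx lf ft_leaf ft_unif ft_ofReal cz)
open Pool.Agent.MP_ca1109_lc.Xr (Gr gr_real str_gr)

variable {n : ℕ}

/-! ## The gates without exempt conjunctions -/

/-- A threshold gate without exempt conjunctions. -/
def Rt (r : ℕ) (g : (Fin n → Bool) → Bool) : Prop :=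
  ∃ (N : ℕ) (S : Fin N → Finset (Fin n)) (y : Fin N → Fin n → Bool) (w : Fin N → ℝ) (θ : ℝ),
    (∀ i, {m | i ∈ S m}.ncard ≤ r) ∧ ∀ x, g x = true ↔ θ ≤ litSum S y w x

/-- A Boolean function of `k` such gates and gates which test parities. -/
def RtTest (r B k : ℕ) (f : (Fin n → Bool) → Bool) : Prop :=
  ∃ (g : Fin k → (Fin n → Bool) → Bool) (F : (Fin k → Bool) → Bool),
    (∀ i, Rt r (g i) ∨ Lin B (g i)) ∧ ∀ x, f x = F fun i => g i x

theorem Rt.fx {r : ℕ} {g : (Fin n → Bool) → Bool} (h : Rt r g) (L : Finset (Fin n))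
    (a : Fin n → Bool) : Rt r fun x => g (Xd.fx L a x) := by
  obtain ⟨N, S, y, w, θ, hr, hg⟩ := h
  refine ⟨N, rS L a S y, y, rc L a S y w, θ, fun i => ?_, fun x => ?_⟩
  · refine (Set.ncard_le_ncard ?_ (Set.toFinite _)).trans (hr i)
    intro m h1
    exact (rS_mem h1).2.1
  · rw [hg, litSum_fx]

theorem Rt.gr {r B : ℕ} {g : (Fin n → Bool) → Bool} (h : Rt r g) : Gr (upar n) r 1 B g := by
  obtain ⟨N, S, y, w, θ, hr, hg⟩ := h
  exact gr_real hr hg

theorem RtTest.fx {r B k : ℕ} {f : (Fin n → Bool) → Bool} (h : RtTest r B k f)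
    (L : Finset (Fin n)) (a : Fin n → Bool) : RtTest r B k fun x => f (Xd.fx L a x) := by
  obtain ⟨g, F, hg, hf⟩ := h
  exact ⟨fun i x => g i (Xd.fx L a x), F,
    fun i => (hg i).imp (fun h => h.fx L a) fun h => h.fx L a, fun x => hf _⟩

open Classical in
/-- The exempt conjunctions are dropped. -/
theorem sb_litSum {N : ℕ} (S : Fin N → Finset (Fin n))
    (y : Fin N → Fin n → Bool) (X : Finset (Fin N)) (c : Fin N → ℝ) (x : Fin n → Bool)
    (hx : ¬ ∃ m ∈ X, ∀ i ∈ S m, x i = y m i) :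
    litSum S y c x = litSum (fun m => if m ∈ X then ∅ else S m) y
      (fun m => if m ∈ X then 0 else c m) x := by
  unfold litSum
  refine sum_congr rfl fun m _ => ?_
  by_cases hm : m ∈ X
  · simp only [if_pos hm, ite_self]
    exact if_neg fun h => hx ⟨m, hm, h⟩
  · simp only [if_neg hm]

theorem Thr.drop {r V W : ℕ} {L : Finset (Fin n)} {g : (Fin n → Bool) → Bool}
    (h : Thr r V W L g) :
    ∃ (g' : (Fin n → Bool) → Bool) (κ : Type) (_ : Fintype κ) (S : κ → Finset (Fin n))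
      (y : κ → Fin n → Bool), Rt r g' ∧ Fintype.card κ ≤ V ∧ (∀ t, W < (S t \ L).card) ∧
      ∀ x, g x ≠ g' x → ∃ t, ∀ i ∈ S t, x i = y t i := by
  classical
  obtain ⟨N, S, y, X, w, θ, hX, hW, hr, hg⟩ := h
  refine ⟨fun x => decide (θ ≤ litSum (fun m => if m ∈ X then ∅ else S m) y
    (fun m => if m ∈ X then 0 else w m) x), {m // m ∈ X}, inferInstance, fun t => S t.1,
    fun t => y t.1, ⟨N, fun m => if m ∈ X then ∅ else S m, y, fun m => if m ∈ X then 0 else w m, θ,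
      fun i => ?_, fun x => by simp⟩, ?_, fun t => hW t.1 t.2, fun x hx => ?_⟩
  · refine (Set.ncard_le_ncard ?_ (Set.toFinite _)).trans (hr i)
    intro m hi
    have hi' : i ∈ (if m ∈ X then (∅ : Finset (Fin n)) else S m) := hi
    by_cases hm : m ∈ X
    · rw [if_pos hm] at hi'
      exact absurd hi' (notMem_empty i)
    · rw [if_neg hm] at hi'
      exact ⟨hm, hi'⟩
  · rw [Fintype.card_coe]
    exact hX
  · by_contra hcon
    refine hx ?_
    rw [Bool.eq_iff_iff, hg, sb_litSum S y X w x ?_, decide_eq_true_iff]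
    rintro ⟨m, hm, hmx⟩
    exact hcon ⟨⟨m, hm⟩, hmx⟩

theorem GateTest.up {r B k V W : ℕ} {L : Finset (Fin n)} {f : (Fin n → Bool) → Bool}
    (hf : GateTest r B k V W L f) : Up (RtTest r B k) (k * V) W L f := by
  classical
  obtain ⟨g, F, hg, hf⟩ := hf
  have hex : ∀ j, ∃ (g' : (Fin n → Bool) → Bool) (κ : Type) (_ : Fintype κ)
      (S : κ → Finset (Fin n)) (y : κ → Fin n → Bool), (Rt r g' ∨ Lin B g') ∧
      Fintype.card κ ≤ V ∧ (∀ t, W < (S t \ L).card) ∧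
      ∀ x, g j x ≠ g' x → ∃ t, ∀ i ∈ S t, x i = y t i := by
    intro j
    rcases hg j with h | h
    · obtain ⟨g', κ, i1, S, y, h1, h2⟩ := h.drop
      exact ⟨g', κ, i1, S, y, Or.inl h1, h2⟩
    · exact ⟨g j, Empty, inferInstance, Empty.elim, Empty.elim, Or.inr h, by simp,
        fun t => t.elim, fun x hx => absurd rfl hx⟩
  choose g' κ iκ S y h1 h2 h3 h4 using hex
  refine ⟨fun x => F fun j => g' j x, (j : Fin k) × κ j, inferInstance, fun t => S t.1 t.2,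
    fun t => y t.1 t.2, ⟨g', F, h1, fun x => rfl⟩, ?_, fun t => h3 _ _, fun x hx => ?_⟩
  · rw [Fintype.card_sigma]
    refine (sum_le_sum fun j _ => h2 j).trans (le_of_eq ?_)
    rw [sum_const, card_univ, Fintype.card_fin, smul_eq_mul]
  · by_contra hcon
    refine hx ?_
    rw [hf]
    congr 1
    funext j
    by_contra hj
    obtain ⟨t, ht⟩ := h4 j x hj
    exact hcon ⟨⟨j, t⟩, ht⟩

/-! ## Functions of gates -/

/-- Strings of small bias fool the functions of `k` gates. -/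
theorem base_str (r B k : ℕ) {ε : ℝ} (hε : 0 < ε) : ∃ C n₀ : ℕ, ∀ n ≥ n₀,
    ∀ (Ω : Type) [Fintype Ω] [Nonempty Ω] (Y : Ω → Cube n) (δ : ℝ), 0 ≤ δ →
      δ * (n : ℝ) ^ C ≤ 1 → Bias δ Y → ∀ f : Cube n → Bool, RtTest r B k f →
        |(avg fun ω => ind (f (Y ω))) - avg fun x : Cube n => ind (f x)| ≤ ε := by
  obtain ⟨R, K, V, ε₀, hK, hV, hε₀, HS⟩ := str_gr r 1 B k hε
  obtain ⟨C, n₀, HF⟩ := fool_bias R K V (show 0 < ε₀ / 8 by positivity)
  obtain ⟨n₁, hn₁⟩ := exists_nat_gt (8 / ε₀)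
  refine ⟨C + 1, max n₀ (max n₁ 1), fun n hn Ω _ _ Y δ hδ hδn hY f hf => ?_⟩
  have hn0 : n₀ ≤ n := (le_max_left _ _).trans hn
  have hn1 : n₁ ≤ n := (le_max_left _ _).trans ((le_max_right _ _).trans hn)
  have hn2 : 1 ≤ n := (le_max_right _ _).trans ((le_max_right _ _).trans hn)
  have hnr : (1 : ℝ) ≤ n := by exact_mod_cast hn2
  have hnp : (0 : ℝ) < n := by linarith
  have hCn : (1 : ℝ) ≤ (n : ℝ) ^ C := one_le_pow₀ hnr
  have hδC : δ * (n : ℝ) ^ C ≤ 1 := by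
    refine le_trans ?_ hδn
    rw [pow_succ, ← mul_assoc]
    exact le_mul_of_one_le_right (by positivity) hnr
  have hδε : δ ≤ ε₀ / 8 := by
    have h1 : δ * n ≤ 1 := by
      refine le_trans ?_ hδn
      rw [pow_succ, ← mul_assoc]
      exact mul_le_mul_of_nonneg_right (le_mul_of_one_le_right hδ hCn) hnp.le
    have h2 : 8 / ε₀ ≤ n := by
      have : (n₁ : ℝ) ≤ n := by exact_mod_cast hn1
      linarith
    have h3 : 8 ≤ n * ε₀ := by rwa [div_le_iff₀ hε₀] at h2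
    by_contra hcon
    push Not at hcon
    have h4 : ε₀ / 8 * n < δ * n := mul_lt_mul_of_pos_right hcon hnp
    linarith
  obtain ⟨g, F, hg, hf⟩ := hf
  have hX : FP (upar n) R 1 K V ε₀ Y := by
    refine (up_fp hδ hY fun Ω' _ _ Z hZ => HF n hn0 Z δ hδ hδC hZ).mono le_rfl dvd_rfl le_rfl
      le_rfl ?_
    linarith
  have h1 := HS n (upar n) g F (fun i => (hg i).elim (fun h => h.gr) fun h => h.gr) Y hX
  simpa only [hf] using h1

/-! ## The leaves -/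

/-- Strings of small bias fool the functions of `k` gates at every leaf of logarithmic depth. -/
theorem leaf_str (r B k e : ℕ) {ε : ℝ} (hε : 0 < ε) : ∃ C n₀ : ℕ, ∀ n ≥ n₀,
    ∀ (Ω : Type) [Fintype Ω] [Nonempty Ω] (Y : Ω → Cube n) (δ : ℝ), 0 ≤ δ →
      δ * (n : ℝ) ^ C ≤ 1 → Bias δ Y → LeafY Y (fun _ => RtTest r B k) (e * Nat.clog 2 n) ε := by
  classical
  obtain ⟨C₀, n₀, HF⟩ := base_str r B k (show 0 < ε / 2 by positivity)
  obtain ⟨n₁, hn₁⟩ := exists_nat_gt (2 / ε)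
  refine ⟨C₀ + (2 * e + 2), max n₀ (max n₁ 4), fun n hn Ω _ _ Y δ hδ hδn hY L a hL => ?_⟩
  have hn0 : n₀ ≤ n := (le_max_left _ _).trans hn
  have hn1 : n₁ ≤ n := (le_max_left _ _).trans ((le_max_right _ _).trans hn)
  have hn4 : 4 ≤ n := (le_max_right _ _).trans ((le_max_right _ _).trans hn)
  have hnr : (4 : ℝ) ≤ n := by exact_mod_cast hn4
  have hnp : (0 : ℝ) < n := by linarith
  have hnn : (1 : ℝ) ≤ n := by linarith
  have hnε : 2 / ε ≤ n := by
    have : (n₁ : ℝ) ≤ n := by exact_mod_cast hn1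
    linarith
  -- the depth
  have h2L : (2 : ℝ) ^ L.card ≤ (n : ℝ) ^ (2 * e) := by
    have h1 : (2 : ℝ) ^ Nat.clog 2 n ≤ (n : ℝ) ^ 2 := by
      refine (Xp.ma_clog n).trans ?_
      nlinarith
    calc (2 : ℝ) ^ L.card ≤ 2 ^ (e * Nat.clog 2 n) := pow_le_pow_right₀ (by norm_num) hL
      _ = (2 ^ Nat.clog 2 n) ^ e := by rw [mul_comm, pow_mul]
      _ ≤ ((n : ℝ) ^ 2) ^ e := pow_le_pow_left₀ (by positivity) h1 e
      _ = (n : ℝ) ^ (2 * e) := by rw [← pow_mul]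
  have hC₀ : (1 : ℝ) ≤ (n : ℝ) ^ C₀ := one_le_pow₀ hnn
  have h2p : (0 : ℝ) < 2 ^ L.card := by positivity
  have hA : δ * 2 ^ L.card * (n : ℝ) ^ C₀ * (n : ℝ) ^ 2 ≤ 1 := by
    refine le_trans ?_ hδn
    calc δ * 2 ^ L.card * (n : ℝ) ^ C₀ * (n : ℝ) ^ 2 =
        δ * (n : ℝ) ^ C₀ * (n : ℝ) ^ 2 * 2 ^ L.card := by ring
      _ ≤ δ * (n : ℝ) ^ C₀ * (n : ℝ) ^ 2 * (n : ℝ) ^ (2 * e) :=
          mul_le_mul_of_nonneg_left h2L (by positivity)
      _ = δ * (n : ℝ) ^ (C₀ + (2 * e + 2)) := by rw [pow_add, pow_add]; ring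
  have hB : δ * 2 ^ L.card * (n : ℝ) ^ 2 ≤ 1 := by
    refine le_trans ?_ hA
    calc δ * 2 ^ L.card * (n : ℝ) ^ 2 = δ * 2 ^ L.card * (n : ℝ) ^ 2 * 1 := by ring
      _ ≤ δ * 2 ^ L.card * (n : ℝ) ^ 2 * (n : ℝ) ^ C₀ :=
          mul_le_mul_of_nonneg_left hC₀ (by positivity)
      _ = _ := by ring
  have hδL : δ * 2 ^ L.card * n ≤ 1 := by
    refine le_trans ?_ hB
    exact mul_le_mul_of_nonneg_left (by nlinarith) (by positivity)
  have hδL0 : (0 : ℝ) ≤ δ * 2 ^ L.card := by positivity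
  have hhalf : δ * 2 ^ L.card ≤ 1 / 2 := by nlinarith
  have hεL : δ * 2 ^ L.card ≤ ε / 2 := by
    have h1 : 2 ≤ n * ε := by rwa [div_le_iff₀ hε] at hnε
    by_contra hcon
    push Not at hcon
    have h2 : ε / 2 * n < δ * 2 ^ L.card * n := mul_lt_mul_of_pos_right hcon hnp
    linarith
  obtain ⟨hPr', Ω', i1, i2, Y', hBi, -, hlf⟩ := cz hδ hY L hhalf
  obtain ⟨D, hD⟩ : ∃ D : ℝ, D = (1 / 2) ^ L.card := ⟨_, rfl⟩
  have hD0 : 0 < D := by rw [hD]; positivity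
  have hDD : D * 2 ^ L.card = 1 := by
    rw [hD, ← mul_pow]
    norm_num
  have hδD : δ ≤ ε / 2 * D := by
    have h1 := mul_le_mul_of_nonneg_left hεL hD0.le
    have h2 : D * (δ * 2 ^ L.card) = δ * (D * 2 ^ L.card) := by ring
    rw [h2, hDD, mul_one] at h1
    linarith
  have hPr := (hPr' a).trans hδD
  have hX : ∀ f : Cube n → Bool, RtTest r B k f →
      |(avg fun ω => ind (f (Y' a ω))) - avg fun x : Cube n => ind (f x)| ≤ ε / 2 := by
    refine HF n hn0 Ω' (Y' a) (2 ^ (L.card + 1) * δ) (by positivity) ?_ (hBi a)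
    calc 2 ^ (L.card + 1) * δ * (n : ℝ) ^ C₀ = δ * 2 ^ L.card * (n : ℝ) ^ C₀ * 2 := by
          rw [pow_succ]; ring
      _ ≤ δ * 2 ^ L.card * (n : ℝ) ^ C₀ * (n : ℝ) ^ 2 :=
          mul_le_mul_of_nonneg_left (by nlinarith) (by positivity)
      _ ≤ 1 := hA
  rw [← hD]
  refine ⟨by rw [hD] at hPr ⊢; exact hPr.trans (mul_le_mul_of_nonneg_right (by linarith)
    (by positivity)), ?_⟩
  intro f hf
  have h1 := hX _ (hf.fx L a)
  have h2 := hlf a (fun y => ((ind (f (Xd.fx L a y)) : ℝ) : ℂ))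
  simp only [ft_leaf] at h2
  rw [ft_ofReal, ft_ofReal, ← Complex.ofReal_mul] at h2
  have h3 := Complex.ofReal_injective h2
  rw [h3, ft_unif]
  obtain ⟨Pr, hPd⟩ : ∃ Pr : ℝ, Pr = avg fun ω => one (Tr L a (Y ω)) := ⟨_, rfl⟩
  obtain ⟨A', hA'⟩ : ∃ A' : ℝ, A' = avg fun ω' : Ω' => ind (f (Xd.fx L a (Y' a ω'))) := ⟨_, rfl⟩
  obtain ⟨A, hA1⟩ : ∃ A : ℝ, A = avg fun x : Cube n => ind (f (Xd.fx L a x)) := ⟨_, rfl⟩
  have hA0 : 0 ≤ A' := by
    rw [hA']
    exact avg_nonneg fun ω => by unfold ind; split_ifs <;> norm_num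
  have hA2 : A' ≤ 1 := by
    rw [hA']
    refine (avg_mono (g := fun _ => (1 : ℝ)) fun ω => ?_).trans (le_of_eq (avg_const _))
    unfold ind
    split_ifs <;> norm_num
  rw [← hPd, ← hA', ← hA1, ← hD]
  rw [← hPd, ← hD] at hPr
  rw [← hA', ← hA1] at h1
  have h4 : Pr * A' - D * A = (Pr - D) * A' + D * (A' - A) := by ring
  rw [h4]
  refine (abs_add_le _ _).trans ?_
  rw [abs_mul, abs_mul, abs_of_nonneg hA0, abs_of_pos hD0]
  have h5 : |Pr - D| * A' ≤ ε / 2 * D := by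
    calc |Pr - D| * A' ≤ |Pr - D| * 1 := mul_le_mul_of_nonneg_left hA2 (abs_nonneg _)
      _ ≤ ε / 2 * D := by rw [mul_one]; exact hPr
  have h6 : D * |A' - A| ≤ D * (ε / 2) := mul_le_mul_of_nonneg_left h1 hD0.le
  linarith

/-! ## The theorem -/

/-- Every string of polynomially small bias fools the functions of gates on the subcubes
of partitions of small average codimension. -/
theorem part_fools (r B k h : ℕ) {ε : ℝ} (hε : 0 < ε) : ∃ C n₀ : ℕ, ∀ n ≥ n₀,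
    ∀ (Ω : Type) [Fintype Ω] [Nonempty Ω] (Y : Ω → Cube n) (δ : ℝ), 0 ≤ δ →
      δ * (n : ℝ) ^ C ≤ 1 → Bias δ Y → ∀ f : Cube n → Bool,
        PartTest r B k h n f →
        |(avg fun ω => ind (f (Y ω))) - avg fun x : Cube n => ind (f x)| ≤ ε := by
  classical
  obtain ⟨M, hM⟩ := exists_nat_gt (4 * (h : ℝ) / ε)
  obtain ⟨ε₁, hε₁⟩ : ∃ ε₁ : ℝ, ε₁ = min 1 (ε / 8) := ⟨_, rfl⟩
  have hε₁0 : 0 < ε₁ := by
    rw [hε₁]
    exact lt_min one_pos (by positivity)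
  have hε₁1 : ε₁ ≤ 1 := by rw [hε₁]; exact min_le_left _ _
  have hε₁2 : ε₁ ≤ ε / 8 := by rw [hε₁]; exact min_le_right _ _
  obtain ⟨C, n₀, HC⟩ := leaf_str r B k (M + (h + 1)) hε₁0
  obtain ⟨n₁, hn₁⟩ := exists_nat_gt (24 * (k : ℝ) / ε)
  refine ⟨C, max n₀ (max n₁ 2), fun n hn Ω _ _ Y δ hδ hδn hY f hf => ?_⟩
  have hn0 : n₀ ≤ n := (le_max_left _ _).trans hn
  have hn1 : n₁ ≤ n := (le_max_left _ _).trans ((le_max_right _ _).trans hn)
  have hn2 : 2 ≤ n := (le_max_right _ _).trans ((le_max_right _ _).trans hn)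
  have hnr : (2 : ℝ) ≤ n := by exact_mod_cast hn2
  have hnp : (0 : ℝ) < n := by linarith
  have hl := HC n hn0 Ω Y δ hδ hδn hY
  rw [add_mul] at hl
  have hw : (((k * n ^ h : ℕ) : ℝ)) * (3 * (1 / 2) ^ ((h + 1) * Nat.clog 2 n)) ≤ ε / 4 / 2 := by
    have h1 : ((1 : ℝ) / 2) ^ ((h + 1) * Nat.clog 2 n) ≤ 1 / (n : ℝ) ^ (h + 1) := by
      rw [one_div_pow]
      apply one_div_le_one_div_of_le (by positivity)
      rw [mul_comm, pow_mul]
      exact pow_le_pow_left₀ (by positivity) (Xp.ma_clog' n) _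
    have h5 : 24 * (k : ℝ) / ε ≤ n := by
      have : (n₁ : ℝ) ≤ n := by exact_mod_cast hn1
      linarith
    have h6 : 24 * (k : ℝ) ≤ n * ε := by
      rwa [div_le_iff₀ hε] at h5
    calc (((k * n ^ h : ℕ) : ℝ)) * (3 * (1 / 2) ^ ((h + 1) * Nat.clog 2 n)) ≤
        (((k * n ^ h : ℕ) : ℝ)) * (3 * (1 / (n : ℝ) ^ (h + 1))) :=
          mul_le_mul_of_nonneg_left (by linarith) (Nat.cast_nonneg _)
      _ = 3 * k / n := by
        push_cast
        rw [pow_succ]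
        field_simp
      _ ≤ ε / 4 / 2 := by
        rw [div_le_iff₀ hnp]
        linarith
  have h1 := wide_str Y (P := RtTest r B k) (D := M * Nat.clog 2 n)
    (W := (h + 1) * Nat.clog 2 n) (N₁ := k * n ^ h) (ε := ε / 4) hε₁0.le hε₁1 (by linarith) hw hl
  exact avg_str Y hε hM (Nat.clog_pos (by norm_num) hn2)
    (h1.mono fun L f hf => hf.up) hf

/-- Every string of polynomially small bias fools the class, for all lengths. -/
theorem str_fools (r B k h : ℕ) {ε : ℝ} (hε : 0 < ε) : ∃ C : ℕ, ∀ (n : ℕ)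
    (Ω : Type) [Fintype Ω] [Nonempty Ω] (Y : Ω → Cube n) (δ : ℝ), 0 ≤ δ →
      δ * ((n : ℝ) + 1) ^ C ≤ 1 → Bias δ Y → ∀ f : Cube n → Bool, SbTest r B k h n f →
        |(avg fun ω => ind (f (Y ω))) - avg fun x : Cube n => ind (f x)| ≤ ε := by
  classical
  obtain ⟨C, n₀, HC⟩ := part_fools r B k h hε
  obtain ⟨D, hD⟩ := exists_nat_gt ((2 : ℝ) ^ n₀ / ε)
  refine ⟨C + D, fun n Ω _ _ Y δ hδ hδn hY f hf => ?_⟩
  have hn0 : (0 : ℝ) ≤ n := Nat.cast_nonneg n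
  by_cases hn : n₀ ≤ n
  · obtain ⟨ℓ, b, g, hA, hg, hf⟩ := hf
    have h1 : δ * (n : ℝ) ^ C ≤ 1 := by
      refine le_trans (mul_le_mul_of_nonneg_left ?_ hδ) hδn
      calc (n : ℝ) ^ C ≤ ((n : ℝ) + 1) ^ C := pow_le_pow_left₀ hn0 (by linarith) C
        _ ≤ ((n : ℝ) + 1) ^ (C + D) := pow_le_pow_right₀ (by linarith) (Nat.le_add_right _ _)
    have h2 := HC n hn Ω (fun ω => aff ℓ b (Y ω)) δ hδ h1 (bias_aff hY hA.surjective) g hg
    have h3 : (avg fun x : Cube n => ind (f x)) = avg fun x : Cube n => ind (g x) := by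
      simp only [hf]
      exact avg_equiv (Equiv.ofBijective _ hA) fun x => ind (g x)
    rw [h3]
    simpa only [hf] using h2
  · push Not at hn
    rcases Nat.eq_zero_or_pos n with rfl | hpos
    · have h1 : ∀ x : Cube 0, f x = f Fin.elim0 := fun x => congrArg f (funext fun i => i.elim0)
      rw [show (fun ω => ind (f (Y ω))) = fun _ => ind (f Fin.elim0) from funext fun ω => by rw [h1],
        show (fun x : Cube 0 => ind (f x)) = fun _ => ind (f Fin.elim0) from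
          funext fun x => by rw [h1], avg_const, avg_const, sub_self, abs_zero]
      exact hε.le
    · refine (rd_small hδ hY f).trans ?_
      have hn1 : (1 : ℝ) ≤ n := by exact_mod_cast hpos
      have h2D : (D : ℝ) ≤ 2 ^ D := by exact_mod_cast (Nat.lt_two_pow_self).le
      have h1 : (2 : ℝ) ^ D ≤ ((n : ℝ) + 1) ^ (C + D) := by
        calc (2 : ℝ) ^ D ≤ ((n : ℝ) + 1) ^ D := pow_le_pow_left₀ (by norm_num) (by linarith) D
          _ ≤ _ := pow_le_pow_right₀ (by linarith) (Nat.le_add_left _ _)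
      have h3 : δ * D ≤ 1 := (mul_le_mul_of_nonneg_left (h2D.trans h1) hδ).trans hδn
      have h4 : (2 : ℝ) ^ n ≤ 2 ^ n₀ := pow_le_pow_right₀ (by norm_num) hn.le
      have h5 : (2 : ℝ) ^ n₀ ≤ D * ε := by
        have := hD.le
        rwa [div_le_iff₀ hε] at this
      calc δ * 2 ^ n ≤ δ * (D * ε) := mul_le_mul_of_nonneg_left (h4.trans h5) hδ
        _ = δ * D * ε := by ring
        _ ≤ 1 * ε := mul_le_mul_of_nonneg_right h3 hε.le
        _ = ε := one_mul ε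

/-- Every probability distribution of polynomially small bias fools the class. -/
theorem small_bias (r B k h : ℕ) {ε : ℝ} (hε : 0 < ε) : ∃ C : ℕ, ∀ (n : ℕ)
    (p : (Fin n → Bool) → ℝ) (δ : ℝ), SmallBias n δ p → δ * ((n : ℝ) + 1) ^ C ≤ 1 →
      ∀ f : (Fin n → Bool) → Bool, SbTest r B k h n f →
        |(∑ x, if f x = true then p x else 0) - prob f| ≤ ε := by
  obtain ⟨C, HC⟩ := str_fools r B k h (show 0 < ε / 2 by positivity)
  exact ⟨C + 1, fun n p δ hp hδn f hf => rd_final (D := fun n => n) hε (fun n hn => hn)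
    (fun n Ω _ _ Y δ hδ hδn hY f hf => HC n Ω Y δ hδ hδn (biasD_all hY le_rfl) f hf) n p δ hp hδn f
    hf⟩

end Pool.Agent.MP_ca1109_lc.Xs
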