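import Pool.Agent.MP_ca1109_lc.Xs.FN
import Pool.Agent.MP_ca1109_lc.Xp.GN

/-!
# The generator
-/

namespace Pool.Agent.MP_ca1109_lc.Xs

open Finset Pool.Agent.MP_ca1109_lc.Mpg Pool.Agent.MP_ca1109_lc.Agp
open Pool.Agent.MP_ca1109_lc.Dnf (Cube ch)
open Pool.Agent.MP_ca1109_lc.Xp (Bias)
open Pool.Agent.MP_ca1109_lc.Xa (fp_avg_fin)

/-- One explicit generator with logarithmic seeds fools the class. -/
theorem logGen_sb (r B k h : ℕ) {ε : ℝ} (hε : 0 < ε) : LogGen (SbTest r B k h) ε := by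
  obtain ⟨C, hC⟩ := str_fools r B k h hε
  obtain ⟨E, G, hG, H⟩ := Hyb.small_bias_poly C one_pos
  refine logGen_of hG fun n T hT => ?_
  have hne : Nonempty (Fin (2 ^ E n)) := ⟨⟨0, by positivity⟩⟩
  have h1 := hC n (Fin (2 ^ E n)) (fun p : Fin (2 ^ E n) => out G n p) (1 / ((n : ℝ) + 1) ^ C)
    (by positivity) ?_ (Xp.gn_bias (H n)) T hT
  · rw [← fp_avg_fin, prob_eq_avg]
    exact h1
  · rw [one_div, inv_mul_cancel₀ (by positivity)]

end Pool.Agent.MP_ca1109_lc.Xs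

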