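import Pool.Agent.MP_ca1109_lc.Xd.CZ
import Pool.Agent.MP_ca1109_lc.Xp.FN
import Pool.Agent.MP_ca1109_lc.Xd.RS
import Pool.Agent.MP_ca1109_lc.Xs.Test

/-!
# Strings of small bias and parities

If all strings of bias at most `δ` fool a function `φ` then they fool it on both sides of every parity.
-/

namespace Pool.Agent.MP_ca1109_lc.Xs

open Finset Pool.Agent.MP_ca1109_lc.Mpg Pool.Agent.MP_ca1109_lc.Agp
open Pool.Agent.MP_ca1109_lc.Dnf (Cube ch sg)
open Pool.Agent.MP_ca1109_lc.Xp (Bias)

variable {n : ℕ}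

theorem pr_sq (S : Finset (Fin n)) (x : Cube n) : ch S x = 1 ∨ ch S x = -1 := by
  have h := Dnf.ch_abs S x
  rcases abs_cases (ch S x) with ⟨h1, -⟩ | ⟨h1, -⟩
  · left; linarith
  · right; linarith

theorem pr_E (S T : Finset (Fin n)) :
    (avg fun x : Cube n => ch S x * ch T x) = if S = T then 1 else 0 := by
  rw [Xp.avg_E]
  exact Dnf.fc_ch S T

/-- The string which is `Y` on the side `ch S = s` and is uniform on the other side. -/
theorem pr_str {Ω : Type} [Fintype Ω] [Nonempty Ω] {Y : Ω → Cube n} {δ : ℝ}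
    (hY : Bias δ Y) {S : Finset (Fin n)} (hS : S ≠ ∅) {s : ℝ} (hs : s = 1 ∨ s = -1) :
    ∃ (Ω' : Type) (_ : Fintype Ω') (_ : Nonempty Ω') (Z : Ω' → Cube n), Bias δ Z ∧
      ∀ φ : Cube n → ℝ, (avg fun ω => φ (Z ω)) =
        (avg fun ω => (1 + s * ch S (Y ω)) / 2 * φ (Y ω)) +
          (1 - s * avg fun ω => ch S (Y ω)) * avg fun x : Cube n => (1 - s * ch S x) / 2 * φ x := by
  classical
  have hss : s * s = 1 := by rcases hs with rfl | rfl <;> norm_num
  have habs : |s| = 1 := by rcases hs with rfl | rfl <;> norm_num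
  -- the other side
  have hcard : (Fintype.card {x : Cube n // ch S x = -s} : ℝ) = 2 ^ n / 2 := by
    have h1 : (Fintype.card {x : Cube n // ch S x = -s} : ℝ) =
        ∑ x : Cube n, (1 - s * ch S x) / 2 := by
      rw [Fintype.card_subtype, ← Finset.sum_boole]
      refine sum_congr rfl fun x _ => ?_
      rcases pr_sq S x with h | h <;> rcases hs with rfl | rfl <;> rw [h] <;> norm_num
    have h2 : (∑ x : Cube n, ch S x) = 0 := by
      have h3 := Dnf.E_ch S
      rw [if_neg hS] at h3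
      unfold Dnf.E at h3
      rcases div_eq_zero_iff.1 h3 with h4 | h4
      · exact h4
      · exact absurd h4 (by positivity)
    rw [h1, ← Finset.sum_div, sum_sub_distrib, ← mul_sum, h2, mul_zero, sub_zero, sum_const,
      card_univ]
    simp
  have hpos : (0 : ℝ) < Fintype.card {x : Cube n // ch S x = -s} := by
    rw [hcard]
    positivity
  have hne : Nonempty {x : Cube n // ch S x = -s} := by
    rw [← Fintype.card_pos_iff]
    exact_mod_cast hpos
  have hside : ∀ φ : Cube n → ℝ, (avg fun x : {x : Cube n // ch S x = -s} => φ x.1) =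
      2 * avg fun x : Cube n => (1 - s * ch S x) / 2 * φ x := by
    intro φ
    unfold avg
    rw [hcard]
    have h1 : (∑ x : {x : Cube n // ch S x = -s}, φ x.1) =
        ∑ x : Cube n, (1 - s * ch S x) / 2 * φ x := by
      rw [← Finset.sum_subtype (univ.filter fun x : Cube n => ch S x = -s) (fun x => by simp) φ,
        sum_filter]
      refine sum_congr rfl fun x _ => ?_
      rcases pr_sq S x with h | h <;> rcases hs with rfl | rfl <;> rw [h] <;> norm_num
    rw [h1]
    have h2 : (Fintype.card (Cube n) : ℝ) = 2 ^ n := by simp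
    rw [h2]
    field_simp
  -- the formula
  have hform : ∀ φ : Cube n → ℝ,
      (avg fun p : Ω × {x : Cube n // ch S x = -s} => φ (if ch S (Y p.1) = s then Y p.1 else p.2.1)) =
        (avg fun ω => (1 + s * ch S (Y ω)) / 2 * φ (Y ω)) +
          (1 - s * avg fun ω => ch S (Y ω)) * avg fun x : Cube n => (1 - s * ch S x) / 2 * φ x := by
    intro φ
    obtain ⟨A, hA⟩ : ∃ A : ℝ, A = avg fun x : Cube n => (1 - s * ch S x) / 2 * φ x := ⟨_, rfl⟩
    rw [avg_prod fun (ω : Ω) (x : {x : Cube n // ch S x = -s}) =>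
      φ (if ch S (Y ω) = s then Y ω else x.1)]
    have h1 : (fun ω => avg fun x : {x : Cube n // ch S x = -s} =>
        φ (if ch S (Y ω) = s then Y ω else x.1)) =
        fun ω => (1 + s * ch S (Y ω)) / 2 * φ (Y ω) + (A - s * A * ch S (Y ω)) := by
      funext ω
      by_cases h : ch S (Y ω) = s
      · simp only [if_pos h, avg_const]
        rw [h, hss, mul_assoc, mul_comm A s, ← mul_assoc, hss]
        ring
      · have h2 : ch S (Y ω) = -s := by
          rcases pr_sq S (Y ω) with h3 | h3 <;> rcases hs with rfl | rfl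
          · exact absurd h3 h
          · rw [h3]; norm_num
          · rw [h3]
          · exact absurd h3 h
        simp only [if_neg h]
        rw [hside φ, ← hA, h2]
        have h3 : s * -s = -1 := by rw [mul_neg, hss]
        have h4 : s * A * -s = -A := by
          rw [show s * A * -s = -(s * s) * A by ring, hss]
          ring
        rw [h3, h4]
        ring
    rw [h1, avg_add, avg_sub, avg_const, avg_mul_left, ← hA]
    ring
  refine ⟨Ω × {x : Cube n // ch S x = -s}, inferInstance, inferInstance,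
    fun p => if ch S (Y p.1) = s then Y p.1 else p.2.1, fun T hT => ?_, hform⟩
  rw [hform (ch T)]
  have h1 : (avg fun ω => (1 + s * ch S (Y ω)) / 2 * ch T (Y ω)) =
      1 / 2 * (avg fun ω => ch T (Y ω)) + s / 2 * avg fun ω => ch (symmDiff S T) (Y ω) := by
    rw [← avg_mul_left, ← avg_mul_left, ← avg_add]
    congr 1
    funext ω
    rw [← Dnf.ch_mul]
    ring
  have h2 : (avg fun x : Cube n => (1 - s * ch S x) / 2 * ch T x) =
      1 / 2 * (avg fun x : Cube n => ch T x) - s / 2 * avg fun x : Cube n => ch S x * ch T x := by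
    rw [← avg_mul_left, ← avg_mul_left, ← avg_sub]
    congr 1
    funext x
    ring
  have h3 : (avg fun x : Cube n => ch T x) = 0 := by
    rw [Xp.avg_E, Dnf.E_ch, if_neg hT]
  rw [h1, h2, h3, pr_E]
  by_cases hST : S = T
  · subst hST
    have h4 : (avg fun ω => ch (symmDiff S S) (Y ω)) = 1 := by
      have : (fun ω => ch (symmDiff S S) (Y ω)) = fun _ => (1 : ℝ) := by
        funext ω
        rw [symmDiff_self, bot_eq_empty, Dnf.ch_empty]
      rw [this, avg_const]
    rw [h4, if_pos rfl]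
    have h5 : 1 / 2 * (avg fun ω => ch S (Y ω)) + s / 2 * 1 +
        (1 - s * avg fun ω => ch S (Y ω)) * (1 / 2 * 0 - s / 2 * 1) =
        (1 + s * s) / 2 * avg fun ω => ch S (Y ω) := by ring
    rw [h5, hss]
    have h6 := hY S hS
    rw [show ((1 : ℝ) + 1) / 2 = 1 by norm_num, one_mul]
    exact h6
  · rw [if_neg hST]
    have h5 : symmDiff S T ≠ ∅ := by
      intro h
      rw [← bot_eq_empty, symmDiff_eq_bot] at h
      exact hST h
    have h6 := hY T hT
    have h7 := hY _ h5
    have h8 : 1 / 2 * (avg fun ω => ch T (Y ω)) + s / 2 * (avg fun ω => ch (symmDiff S T) (Y ω)) +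
        (1 - s * avg fun ω => ch S (Y ω)) * (1 / 2 * 0 - s / 2 * 0) =
        1 / 2 * (avg fun ω => ch T (Y ω)) + s / 2 * avg fun ω => ch (symmDiff S T) (Y ω) := by
      ring
    rw [h8]
    refine (abs_add_le _ _).trans ?_
    have hs2 : |s / 2| = 1 / 2 := by
      rw [abs_div, habs]
      norm_num
    rw [abs_mul, abs_mul, hs2, show |(1 / 2 : ℝ)| = 1 / 2 by norm_num]
    linarith

/-- Both sides of a parity are fooled. -/
theorem pr_fool {Ω : Type} [Fintype Ω] [Nonempty Ω] {Y : Ω → Cube n} {δ ε : ℝ} (hδ : 0 ≤ δ)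
    (hY : Bias δ Y) {S : Finset (Fin n)} (hS : S ≠ ∅) {s : ℝ} (hs : s = 1 ∨ s = -1)
    {φ : Cube n → ℝ} (h1 : ∀ x, |φ x| ≤ 1)
    (H : ∀ (Ω' : Type) [Fintype Ω'] [Nonempty Ω'] (Z : Ω' → Cube n), Bias δ Z →
      |(avg fun ω => φ (Z ω)) - avg φ| ≤ ε) :
    |(avg fun ω => (1 + s * ch S (Y ω)) / 2 * φ (Y ω)) -
      avg fun x : Cube n => (1 + s * ch S x) / 2 * φ x| ≤ ε + δ := by
  obtain ⟨Ω', i1, i2, Z, hZ, hform⟩ := pr_str hY hS hs
  have h2 := H Ω' Z hZ
  rw [hform φ] at h2
  obtain ⟨A, hA⟩ : ∃ A : ℝ, A = avg fun x : Cube n => (1 - s * ch S x) / 2 * φ x := ⟨_, rfl⟩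
  obtain ⟨B, hB⟩ : ∃ B : ℝ, B = avg fun x : Cube n => (1 + s * ch S x) / 2 * φ x := ⟨_, rfl⟩
  obtain ⟨X, hX⟩ : ∃ X : ℝ, X = avg fun ω => (1 + s * ch S (Y ω)) / 2 * φ (Y ω) := ⟨_, rfl⟩
  obtain ⟨b, hb⟩ : ∃ b : ℝ, b = avg fun ω => ch S (Y ω) := ⟨_, rfl⟩
  have h3 : avg φ = B + A := by
    rw [hA, hB, ← avg_add]
    congr 1
    funext x
    ring
  have hb' : |b| ≤ δ := by
    rw [hb]
    exact hY S hS
  have hv : ∀ x : Cube n, 0 ≤ (1 - s * ch S x) / 2 ∧ (1 - s * ch S x) / 2 ≤ 1 := by
    intro x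
    rcases pr_sq S x with h | h <;> rcases hs with rfl | rfl <;> rw [h] <;> norm_num
  have hA1 : |A| ≤ 1 := by
    have hc := card_pos_real (A := Cube n)
    rw [hA]
    unfold avg
    rw [abs_div, abs_of_pos hc, div_le_one hc]
    refine (abs_sum_le_sum_abs _ _).trans ?_
    calc ∑ x : Cube n, |(1 - s * ch S x) / 2 * φ x| ≤ ∑ x : Cube n, (1 : ℝ) :=
          sum_le_sum fun x _ => by
            rw [abs_mul, abs_of_nonneg (hv x).1]
            exact mul_le_one₀ (hv x).2 (abs_nonneg _) (h1 x)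
      _ = Fintype.card (Cube n) := by simp
  rw [← hA, ← hX, ← hb, h3] at h2
  rw [← hX, ← hB]
  have h4 : X - B = (X + (1 - s * b) * A - (B + A)) + s * b * A := by ring
  rw [h4]
  refine (abs_add_le _ _).trans (add_le_add h2 ?_)
  have hsa : |s| = 1 := by rcases hs with rfl | rfl <;> norm_num
  rw [abs_mul, abs_mul, hsa, one_mul]
  calc |b| * |A| ≤ δ * 1 := mul_le_mul hb' hA1 (abs_nonneg _) hδ
    _ = δ := mul_one _

/-- Real functions times parities are fooled. -/
theorem pr_ch {Ω : Type} [Fintype Ω] [Nonempty Ω] {Y : Ω → Cube n} {δ ε : ℝ} (hδ : 0 ≤ δ)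
    (hY : Bias δ Y) (S : Finset (Fin n)) {φ : Cube n → ℝ} (h1 : ∀ x, |φ x| ≤ 1)
    (H : ∀ (Ω' : Type) [Fintype Ω'] [Nonempty Ω'] (Z : Ω' → Cube n), Bias δ Z →
      |(avg fun ω => φ (Z ω)) - avg φ| ≤ ε) :
    |(avg fun ω => ch S (Y ω) * φ (Y ω)) - avg fun x : Cube n => ch S x * φ x| ≤ 2 * (ε + δ) := by
  have hε : 0 ≤ ε := (abs_nonneg _).trans (H Ω Y hY)
  by_cases hS : S = ∅
  · subst hS
    simp only [Dnf.ch_empty, one_mul]
    have h2 := H Ω Y hY
    have h3 : (avg fun x : Cube n => φ x) = avg φ := rfl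
    rw [h3]
    linarith
  · have e1 := pr_fool hδ hY hS (s := 1) (Or.inl rfl) h1 H
    have e2 := pr_fool hδ hY hS (s := -1) (Or.inr rfl) h1 H
    have hid : ∀ x : Cube n, ch S x * φ x =
        (1 + 1 * ch S x) / 2 * φ x - (1 + -1 * ch S x) / 2 * φ x := by
      intro x
      ring
    simp only [hid]
    rw [avg_sub, avg_sub]
    have h3 : ∀ a b c d : ℝ, a - b - (c - d) = (a - c) - (b - d) := fun a b c d => by ring
    rw [h3]
    refine (abs_sub _ _).trans ?_
    linarith

/-- Complex functions times parities are fooled. -/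
theorem pr_chc {Ω : Type} [Fintype Ω] [Nonempty Ω] {Y : Ω → Cube n} {δ ε : ℝ} (hδ : 0 ≤ δ)
    (hY : Bias δ Y) (S : Finset (Fin n)) {g : Cube n → ℂ} (h1 : ∀ x, ‖g x‖ ≤ 1)
    (H : ∀ (Ω' : Type) [Fintype Ω'] [Nonempty Ω'] (Z : Ω' → Cube n), Bias δ Z →
      ‖(av fun ω => g (Z ω)) - av g‖ ≤ ε) :
    ‖(av fun ω => ((ch S (Y ω) : ℝ) : ℂ) * g (Y ω)) -
      av fun x : Cube n => ((ch S x : ℝ) : ℂ) * g x‖ ≤ 4 * (ε + δ) := by
  have hre : ∀ {A : Type} [Fintype A] (F : A → ℂ), (av F).re = avg fun a => (F a).re := by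
    intro A _ F
    unfold av avg
    rw [Complex.div_natCast_re, Complex.re_sum]
  have him : ∀ {A : Type} [Fintype A] (F : A → ℂ), (av F).im = avg fun a => (F a).im := by
    intro A _ F
    unfold av avg
    rw [Complex.div_natCast_im, Complex.im_sum]
  have e1 := pr_ch hδ hY S (φ := fun x => (g x).re)
    (fun x => (Complex.abs_re_le_norm _).trans (h1 x)) fun Ω' _ _ Z hZ => by
      have h2 := H Ω' Z hZ
      have h3 := (Complex.abs_re_le_norm _).trans h2
      rw [Complex.sub_re, hre, hre] at h3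
      exact h3
  have e2 := pr_ch hδ hY S (φ := fun x => (g x).im)
    (fun x => (Complex.abs_im_le_norm _).trans (h1 x)) fun Ω' _ _ Z hZ => by
      have h2 := H Ω' Z hZ
      have h3 := (Complex.abs_im_le_norm _).trans h2
      rw [Complex.sub_im, him, him] at h3
      exact h3
  refine (Complex.norm_le_abs_re_add_abs_im _).trans ?_
  rw [Complex.sub_re, Complex.sub_im, hre, hre, him, him]
  simp only [Complex.re_ofReal_mul, Complex.im_ofReal_mul]
  linarith

theorem par_ch (S : Finset (Fin n)) : ∃ s : ℝ, (s = 1 ∨ s = -1) ∧ ∀ x : Cube n,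
    (par S x = true → s * ch S x = 1) ∧ (par S x = false → s * ch S x = -1) := by
  classical
  have h1 : ∀ x : Cube n, ch S x = (-1) ^ S.card * (-1) ^ (S.filter fun i => x i = true).card := by
    intro x
    unfold ch
    have h2 : ∀ i ∈ S, sg (x i) = (-1) * (if x i = true then (-1 : ℝ) else 1) := by
      intro i _
      unfold sg
      cases x i <;> simp
    rw [prod_congr rfl h2, prod_mul_distrib, prod_const, prod_ite, prod_const, prod_const_one,
      mul_one]
  refine ⟨-(-1) ^ S.card, ?_, fun x => ⟨fun h => ?_, fun h => ?_⟩⟩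
  · rcases Nat.even_or_odd S.card with h | h
    · right
      rw [h.neg_one_pow]
    · left
      rw [h.neg_one_pow]
      norm_num
  · have h3 : Odd (S.filter fun i => x i = true).card := by simpa [par] using h
    rw [h1, h3.neg_one_pow]
    have h4 : ((-1 : ℝ) ^ S.card) * (-1) ^ S.card = 1 := by
      rw [← mul_pow]
      norm_num
    linarith
  · have h3 : Even (S.filter fun i => x i = true).card := by
      simpa [par, Nat.not_odd_iff_even] using h
    rw [h1, h3.neg_one_pow]
    have h4 : ((-1 : ℝ) ^ S.card) * (-1) ^ S.card = 1 := by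
      rw [← mul_pow]
      norm_num
    linarith

/-! ## Restrictions of parities -/

theorem pr_odd (p q : ℕ) : decide (Odd (p + q)) = xor (decide (Odd p)) (decide (Odd q)) := by
  rcases Nat.even_or_odd p with h | h <;> rcases Nat.even_or_odd q with h' | h'
  · have h2 := h.add h'
    simp [Nat.not_odd_iff_even.2 h2, Nat.not_odd_iff_even.2 h, Nat.not_odd_iff_even.2 h']
  · have h2 := h.add_odd h'
    simp [h2, Nat.not_odd_iff_even.2 h, h']
  · have h2 := h.add_even h'
    simp [h2, Nat.not_odd_iff_even.2 h', h]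
  · have h2 := h.add_odd h'
    simp [Nat.not_odd_iff_even.2 h2, h, h']

theorem par_fx (S L : Finset (Fin n)) (a : Cube n) : ∃ c : Bool, ∀ x : Cube n,
    par S (Xd.fx L a x) = xor c (par (S \ L) x) := by
  classical
  refine ⟨par (S ∩ L) a, fun x => ?_⟩
  have h1 : (S.filter fun i => Xd.fx L a x i = true) =
      ((S ∩ L).filter fun i => a i = true) ∪ ((S \ L).filter fun i => x i = true) := by
    ext i
    rw [mem_union, mem_filter, mem_filter, mem_filter, mem_inter, mem_sdiff]
    unfold Xd.fx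
    by_cases hi : i ∈ L
    · simp [hi]
    · simp [hi]
  have h2 : Disjoint ((S ∩ L).filter fun i => a i = true) ((S \ L).filter fun i => x i = true) := by
    refine disjoint_left.2 fun i hi hi' => ?_
    rw [mem_filter, mem_inter] at hi
    rw [mem_filter, mem_sdiff] at hi'
    exact hi'.1.2 hi.1.2
  unfold par
  rw [h1, card_union_of_disjoint h2]
  exact pr_odd _ _

/-! ## Affine bijections -/

theorem ch_aff (ℓ : Fin n → Finset (Fin n)) (b : Fin n → Bool) (T : Finset (Fin n)) :
    ∃ (s : ℝ) (T' : Finset (Fin n)), (s = 1 ∨ s = -1) ∧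
      ∀ x : Cube n, ch T (aff ℓ b x) = s * ch T' x := by
  classical
  induction T using Finset.induction_on with
  | empty => exact ⟨1, ∅, Or.inl rfl, fun x => by rw [Dnf.ch_empty, Dnf.ch_empty, mul_one]⟩
  | insert i T hi ih =>
    obtain ⟨s, T', hs, h⟩ := ih
    obtain ⟨t, ht, hp⟩ := par_ch (ℓ i)
    refine ⟨(if b i = true then -1 else 1) * t * s, symmDiff (ℓ i) T', ?_, fun x => ?_⟩
    · rcases hs with rfl | rfl <;> rcases ht with rfl | rfl <;> cases b i <;> norm_num
    · have h1 : ch (insert i T) (aff ℓ b x) = sg (aff ℓ b x i) * ch T (aff ℓ b x) := by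
        unfold ch
        rw [prod_insert hi]
      have h2 : sg (aff ℓ b x i) = (if b i = true then -1 else 1) * (t * ch (ℓ i) x) := by
        unfold aff
        cases hq : par (ℓ i) x
        · rw [(hp x).2 hq]
          cases b i <;> simp [sg]
        · rw [(hp x).1 hq]
          cases b i <;> simp [sg]
      rw [h1, h2, h, ← Dnf.ch_mul]
      ring

/-- Affine bijections do not increase the bias. -/
theorem bias_aff {Ω : Type} [Fintype Ω] {Y : Ω → Cube n} {δ : ℝ} (hY : Bias δ Y)
    {ℓ : Fin n → Finset (Fin n)} {b : Fin n → Bool} (hA : Function.Surjective (aff ℓ b)) :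
    Bias δ fun ω => aff ℓ b (Y ω) := by
  classical
  intro T hT
  obtain ⟨s, T', hs, h⟩ := ch_aff ℓ b T
  have hT' : T' ≠ ∅ := by
    rintro rfl
    have h1 : ∀ y : Cube n, ch T y = s := by
      intro y
      obtain ⟨x, rfl⟩ := hA y
      rw [h, Dnf.ch_empty, mul_one]
    have h2 : (avg fun x : Cube n => ch T x) = 0 := by
      rw [Xp.avg_E, Dnf.E_ch, if_neg hT]
    simp only [h1] at h2
    rw [avg_const] at h2
    rcases hs with rfl | rfl <;> norm_num at h2
  simp only [h]
  rw [avg_mul_left, abs_mul]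
  have h3 : |s| = 1 := by rcases hs with rfl | rfl <;> norm_num
  rw [h3, one_mul]
  exact hY T' hT'

end Pool.Agent.MP_ca1109_lc.Xs
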